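import Pool.Agent.Lib.MP_d31508_co.Shq.Stmts

/-!
# Project SHQ, module Big: closed sets of size `m` in a large kernel
-/

namespace Pool.Agent.Lib.MP_d31508_co.Shq

open Finset Classical
open Pool.Agent.Lib.MP_d31508_co.Asy (dg Cl D)
open Pool.Agent.Lib.MP_d31508_co.Sharp (Ker Hang kernel_exists dg_mono dg_union_disj D_union
  D_le_sq D_mono)
open Pool.Agent.Lib.MP_d31508_co.Shp (StSel StFlexB)

namespace Big

variable {V : Type} [Fintype V] {G : SimpleGraph V}

lemma flex_extend {A B Y T : Finset V} {w : ℕ} (h : Flex G A Y w) (hAB : A ⊆ B)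
    (hT : Hang G B T) (hYT : Disjoint Y T) (hTw : T.card ≤ w + 1) :
    Flex G B (Y ∪ T) (w + T.card) := by
  intro t ht
  rcases le_or_gt t w with h1 | h1
  · obtain ⟨Y', h2, h3, h4⟩ := h t h1
    exact ⟨Y', h2.trans subset_union_left, h3, h4.mono hAB⟩
  · obtain ⟨Y', h2, h3, h4⟩ := h (t - T.card) (by omega)
    refine ⟨Y' ∪ T, union_subset_union_left h2, ?_, (h4.mono hAB).union hT⟩
    rw [card_union_of_disjoint (disjoint_of_subset_left h2 hYT)]
    omega

lemma D_sdiff_ge {W Y : Finset V} (hY : Y ⊆ W) :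
    D G W ≤ D G (W \ Y) + 2 * ∑ y ∈ Y, dg G W y := by
  have h1 : D G W = D G (W \ Y) + D G Y + 2 * ∑ y ∈ Y, dg G (W \ Y) y := by
    conv_lhs => rw [← sdiff_union_of_subset hY]
    exact D_union sdiff_disjoint
  have h2 : ∑ y ∈ Y, dg G W y = ∑ y ∈ Y, dg G (W \ Y) y + D G Y := by
    unfold D
    rw [← sum_add_distrib]
    apply sum_congr rfl
    intro y _
    rw [← dg_union_disj sdiff_disjoint, sdiff_union_of_subset hY]
  omega

lemma pow45 {n ρ : ℕ} (hρ : 1 ≤ ρ) (h : n * 2 ^ ρ < 3 ^ ρ) :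
    n * 4 ^ (2 * ρ) < 5 ^ (2 * ρ) := by
  have e1 : (4 : ℕ) ^ (2 * ρ) = 2 ^ ρ * 8 ^ ρ := by
    rw [pow_mul, ← mul_pow]; norm_num
  have e2 : (5 : ℕ) ^ (2 * ρ) = 25 ^ ρ := by rw [pow_mul]; norm_num
  have e3 : (3 : ℕ) ^ ρ * 8 ^ ρ = 24 ^ ρ := by rw [← mul_pow]; norm_num
  rw [e1, e2]
  calc n * (2 ^ ρ * 8 ^ ρ) = (n * 2 ^ ρ) * 8 ^ ρ := by ring
    _ ≤ 3 ^ ρ * 8 ^ ρ := Nat.mul_le_mul_right _ h.le
    _ = 24 ^ ρ := e3
    _ < 25 ^ ρ := Nat.pow_lt_pow_left (by norm_num) (by omega)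

lemma arE {N m Dw Wc S : ℕ} (hN : 1 ≤ N) (hm : 5000000 ≤ m)
    (h5 : Dw ≤ 4 * m ^ 2 + 3 * Wc + 14400 + 2 * S) (hKW : (3 * N + 1) * Wc ≤ N * Dw)
    (hNZ : 2 * (N * (2 * S)) ≤ Wc) (hW : 100 * N * m ^ 2 ≤ Wc) : False := by
  have h6 : N * Dw ≤ N * (4 * m ^ 2 + 3 * Wc + 14400 + 2 * S) := Nat.mul_le_mul_left _ h5
  have h7 : 400 ≤ m ^ 2 := by nlinarith
  have h8 : N * 400 ≤ N * m ^ 2 := Nat.mul_le_mul_left _ h7
  have h9 : N * (4 * m ^ 2 + 3 * Wc + 14400 + 2 * S) =
      4 * (N * m ^ 2) + 3 * (N * Wc) + 14400 * N + 2 * (N * S) := by ring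
  have h10 : (3 * N + 1) * Wc = 3 * (N * Wc) + Wc := by ring
  have h11 : 2 * (N * (2 * S)) = 4 * (N * S) := by ring
  have h12 : 100 * N * m ^ 2 = 100 * (N * m ^ 2) := by ring
  rw [h9] at h6
  rw [h10] at hKW
  rw [h11] at hNZ
  rw [h12] at hW
  omega

lemma arD {m Dw Dy U Wc S SY A R : ℕ} (hR : 2 * Dy + 2 * 3 * R ≤ 2 * A + 2 * 3 * U)
    (h1 : A ≤ (2 * m) * (2 * m)) (h2 : Dw ≤ Dy + 2 * SY) (h3 : SY ≤ 7200 + S) (h4 : U ≤ Wc) :
    Dw ≤ 4 * m ^ 2 + 3 * Wc + 14400 + 2 * S := by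
  have h6 : (2 * m) * (2 * m) = 4 * m ^ 2 := by ring
  rw [h6] at h1
  omega

/-- the state of the iteration -/
structure St (G : SimpleGraph V) (W Y₀ Ah : Finset V) (c k : ℕ) where
  A : Finset V
  Z : Finset V
  w : ℕ
  cl : Cl G A
  sub : Ah ⊆ A
  AW : A ⊆ W
  ZW : Z ⊆ W
  dAY : Disjoint A Y₀
  dZY : Disjoint Z Y₀
  dAZ : Disjoint A Z
  hang : Hang G A Z
  flex : Flex G A (Y₀ ∪ Z) w
  card : A.card + Z.card ≤ Ah.card + k * c
  win : 11 ^ k * 79 + 10 ^ k * 21 ≤ 10 ^ k * w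

lemma win_ge {k w : ℕ} (h : 11 ^ k * 79 + 10 ^ k * 21 ≤ 10 ^ k * w) : 100 ≤ w := by
  have h1 : 10 ^ k ≤ 11 ^ k := Nat.pow_le_pow_left (by norm_num) k
  have h2 : 10 ^ k * 100 ≤ 10 ^ k * w := by nlinarith
  exact le_of_mul_le_mul_left h2 (by positivity)

lemma win_step {k w t : ℕ} (h : 11 ^ k * 79 + 10 ^ k * 21 ≤ 10 ^ k * w)
    (ht : w ≤ 10 * t + 21) :
    11 ^ (k + 1) * 79 + 10 ^ (k + 1) * 21 ≤ 10 ^ (k + 1) * (w + t) := by
  have hw := win_ge h
  have h1 : 10 ^ k * w ≤ 10 ^ k * (10 * t + 21) := Nat.mul_le_mul_left _ ht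
  have e1 : 11 ^ (k + 1) = 11 * 11 ^ k := by ring
  have e2 : 10 ^ (k + 1) = 10 * 10 ^ k := by ring
  rw [e1, e2]
  nlinarith

lemma win_end {ρ w : ℕ} (h : 11 ^ (8 * (Nat.log 2 ρ + 1)) * 79 +
    10 ^ (8 * (Nat.log 2 ρ + 1)) * 21 ≤ 10 ^ (8 * (Nat.log 2 ρ + 1)) * w) : 4 * ρ + 2 ≤ w := by
  set j := Nat.log 2 ρ + 1 with hj
  have h1 : ρ < 2 ^ j := Nat.lt_pow_succ_log_self (by norm_num) ρ
  have h2 : 2 ^ j * 10 ^ (8 * j) ≤ 11 ^ (8 * j) := by
    rw [pow_mul, pow_mul, ← mul_pow]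
    exact Nat.pow_le_pow_left (by norm_num) j
  have h3 : 10 ^ (8 * j) * (79 * ρ + 21) ≤ 10 ^ (8 * j) * w := by
    have h4 : ρ * 10 ^ (8 * j) ≤ 2 ^ j * 10 ^ (8 * j) := Nat.mul_le_mul_right _ h1.le
    nlinarith
  have h5 := le_of_mul_le_mul_left h3 (by positivity)
  omega

end Big

open Big in
theorem stBig (hSel : StSel) (hF : StFlexB) (hI : StInc) : StBig := by
  intro V _ G W N m ρ hN hρ1 hK hD hρ hm hW
  have hN1 : 1 ≤ N := by omega
  set l := Nat.log 2 ρ + 1 with hl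
  have hl1 : 1 ≤ l := by omega
  have hρl : ρ ≤ ρ * l := Nat.le_mul_of_pos_right _ hl1
  have hm5 : 5000000 * (ρ * l) ≤ m := by
    calc 5000000 * (ρ * l) = 1000000 * 5 * (ρ * l) := by ring
      _ ≤ 1000000 * N * (ρ * l) := Nat.mul_le_mul_right _ (Nat.mul_le_mul_left _ hN)
      _ = 1000000 * N * ρ * l := by ring
      _ ≤ m := hm
  have hm0 : 5000000 ≤ m := by nlinarith
  have hWm : 500 * m ^ 2 ≤ W.card := by
    calc 500 * m ^ 2 = 100 * 5 * m ^ 2 := by ring
      _ ≤ 100 * N * m ^ 2 := Nat.mul_le_mul_right _ (Nat.mul_le_mul_left _ hN)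
      _ ≤ _ := hW
  have hWb : 5000000 < W.card := by nlinarith
  have hWpos : 0 < W.card := by omega
  -- the first flexible vertices
  obtain ⟨Y₀, hY₀W, hY₀c, hY₀2, hY₀s, -⟩ := hSel V G G W W (3 * N + 1) (2 * N) 100 subset_rfl
    (by omega) hK hD hD (by omega)
  obtain ⟨B₀, hB₀W, hB₀cl, hB₀Y, hB₀c⟩ := hF V G W Y₀ (3 * N + 1) (2 * N) (2 * ρ) (by omega)
    (by omega) hK hY₀W hY₀2 (pow45 hρ1 hρ)
  have hB₀m : B₀.card ≤ 664600 * ρ := by
    set S := ∑ y ∈ Y₀, dg G W y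
    have h1 : (8 * S + 2 * Y₀.card) * (4 * (2 * ρ) + 3) ≤ 57800 * (11 * ρ) :=
      Nat.mul_le_mul (by omega) (by omega)
    omega
  -- the hub set
  obtain ⟨Ah, hAh, hmax⟩ := exists_max_image
    (W.powerset.filter (fun A => B₀ ⊆ A ∧ Cl G A ∧ Disjoint A Y₀))
    (fun A => ((m * ∑ x ∈ A, dg G W x : ℕ) : ℤ) - ((12 * W.card * A.card : ℕ) : ℤ))
    ⟨B₀, by
      rw [mem_filter, mem_powerset]
      exact ⟨hB₀W.trans sdiff_subset, subset_rfl, hB₀cl,
        disjoint_of_subset_left hB₀W sdiff_disjoint⟩⟩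
  rw [mem_filter, mem_powerset] at hAh
  obtain ⟨hAhW, hBAh, hAhcl, hAhY⟩ := hAh
  have hhub : ∀ A : Finset V, A ⊆ W → Ah ⊆ A → Cl G A → Disjoint A Y₀ →
      m * ∑ x ∈ A \ Ah, dg G W x ≤ 12 * W.card * (A \ Ah).card := by
    intro A h1 h2 h3 h4
    have h5 := hmax A (by
      rw [mem_filter, mem_powerset]
      exact ⟨h1, hBAh.trans h2, h3, h4⟩)
    have h6 : ∑ x ∈ A, dg G W x = ∑ x ∈ A \ Ah, dg G W x + ∑ x ∈ Ah, dg G W x :=
      (sum_sdiff h2).symm
    have h7 : A.card = (A \ Ah).card + Ah.card := (card_sdiff_add_card_eq_card h2).symm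
    rw [h6, h7] at h5
    have h8 : ((m * ∑ x ∈ A \ Ah, dg G W x : ℕ) : ℤ) ≤
        ((12 * W.card * (A \ Ah).card : ℕ) : ℤ) := by
      push_cast at h5 ⊢
      linarith
    exact_mod_cast h8
  have hAhc : 2 * Ah.card ≤ m + 2 * B₀.card := by
    have h5 := hmax B₀ (by
      rw [mem_filter, mem_powerset]
      exact ⟨hB₀W.trans sdiff_subset, subset_rfl, hB₀cl,
        disjoint_of_subset_left hB₀W sdiff_disjoint⟩)
    have h6 : ∑ x ∈ Ah, dg G W x ≤ D G W := by
      unfold D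
      exact sum_le_sum_of_subset hAhW
    have h7 : m * ∑ x ∈ Ah, dg G W x ≤ m * (6 * W.card) :=
      Nat.mul_le_mul_left _ (h6.trans hD)
    have h8 : 12 * W.card * Ah.card ≤ m * ∑ x ∈ Ah, dg G W x + 12 * W.card * B₀.card := by
      have h9 : (0 : ℤ) ≤ ((m * ∑ x ∈ B₀, dg G W x : ℕ) : ℤ) := Int.natCast_nonneg _
      have h10 : ((12 * W.card * Ah.card : ℕ) : ℤ) ≤
          ((m * ∑ x ∈ Ah, dg G W x : ℕ) : ℤ) + ((12 * W.card * B₀.card : ℕ) : ℤ) := by
        linarith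
      exact_mod_cast h10
    have h11 : (6 * W.card) * (2 * Ah.card) ≤ (6 * W.card) * (m + 2 * B₀.card) := by
      calc (6 * W.card) * (2 * Ah.card) = 12 * W.card * Ah.card := by ring
        _ ≤ _ := h8
        _ ≤ m * (6 * W.card) + 12 * W.card * B₀.card := by omega
        _ = _ := by ring
    exact le_of_mul_le_mul_left h11 (by omega)
  -- the iteration
  have hbud : ∀ k ≤ 8 * l, k * (8 * ρ + 7) ≤ 120 * (ρ * l) := by
    intro k hk
    calc k * (8 * ρ + 7) ≤ (8 * l) * (15 * ρ) := Nat.mul_le_mul hk (by omega)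
      _ = _ := by ring
  have hKW : (3 * N + 1) * W.card ≤ N * D G W := by
    have h1 := hK W subset_rfl (card_pos.1 hWpos)
    simp only [empty_union] at h1
    nlinarith
  have hstep : ∀ k ≤ 8 * l, ∀ s : St G W Y₀ Ah (8 * ρ + 7) k,
      (∃ S : Finset V, S.card = m ∧ Cl G S) ∨
      (s.w < 4 * ρ + 2 ∧ Nonempty (St G W Y₀ Ah (8 * ρ + 7) (k + 1))) := by
    intro k hk s
    have hb := hbud k hk
    have hYW : Y₀ ∪ s.Z ⊆ W := union_subset hY₀W s.ZW
    have hdAY : Disjoint s.A (Y₀ ∪ s.Z) := disjoint_union_right.2 ⟨s.dAY, s.dAZ⟩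
    have hcard := s.card
    have hAm : s.A.card ≤ m := by omega
    -- the degree sum of the optional set
    have hAZ : m * ∑ x ∈ s.Z, dg G W x ≤ 12 * W.card * (120 * (ρ * l)) := by
      have h1 := hhub (s.A ∪ s.Z) (union_subset s.AW s.ZW) (s.sub.trans subset_union_left)
        (s.hang.cl s.cl) (disjoint_union_left.2 ⟨s.dAY, s.dZY⟩)
      have h2 : s.Z ⊆ (s.A ∪ s.Z) \ Ah := by
        intro x hx
        rw [mem_sdiff]
        exact ⟨mem_union_right _ hx, fun h => disjoint_left.1 s.dAZ (s.sub h) hx⟩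
      have h3 : m * ∑ x ∈ s.Z, dg G W x ≤ m * ∑ x ∈ (s.A ∪ s.Z) \ Ah, dg G W x :=
        Nat.mul_le_mul_left _ (sum_le_sum_of_subset h2)
      have h4 : ((s.A ∪ s.Z) \ Ah).card ≤ 120 * (ρ * l) := by
        have h5 := card_sdiff_add_card_eq_card (s.sub.trans (subset_union_left (s₂ := s.Z)))
        have h6 := card_union_of_disjoint s.dAZ
        omega
      exact h3.trans (h1.trans (Nat.mul_le_mul_left _ h4))
    have hNZ : 2 * (N * (2 * ∑ x ∈ s.Z, dg G W x)) ≤ W.card := by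
      have h1 : m * (2 * (N * (2 * ∑ x ∈ s.Z, dg G W x))) ≤ m * W.card := by
        calc m * (2 * (N * (2 * ∑ x ∈ s.Z, dg G W x)))
            = 4 * N * (m * ∑ x ∈ s.Z, dg G W x) := by ring
          _ ≤ 4 * N * (12 * W.card * (120 * (ρ * l))) := Nat.mul_le_mul_left _ hAZ
          _ = (5760 * (N * ρ * l)) * W.card := by ring
          _ ≤ (1000000 * N * ρ * l) * W.card := by
            apply Nat.mul_le_mul_right
            have : 0 ≤ N * ρ * l := Nat.zero_le _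
            nlinarith
          _ ≤ m * W.card := Nat.mul_le_mul_right _ hm
      exact le_of_mul_le_mul_left h1 (by omega)
    set Y := Y₀ ∪ s.Z with hY
    set U := (W \ Y) \ s.A with hU
    obtain ⟨R, hRU, hR, hKR⟩ := kernel_exists (G := G) 3 2 s.A U
    have hAWY : s.A ⊆ W \ Y := fun x hx =>
      mem_sdiff.2 ⟨s.AW hx, fun h => disjoint_left.1 hdAY hx h⟩
    have hAU : s.A ∪ U = W \ Y := union_sdiff_of_subset hAWY
    have hdAR : Disjoint s.A R := disjoint_of_subset_right hRU disjoint_sdiff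
    have hRW : R ⊆ W := (hRU.trans sdiff_subset).trans sdiff_subset
    have hdRY : Disjoint R Y :=
      disjoint_of_subset_left (hRU.trans sdiff_subset) sdiff_disjoint
    have hRm : m < R.card := by
      by_contra hc
      push Not at hc
      have h1 : D G (s.A ∪ R) ≤ (2 * m) * (2 * m) := by
        refine (D_le_sq _).trans ?_
        have := card_union_le s.A R
        exact Nat.mul_le_mul (by omega) (by omega)
      rw [hAU] at hR
      have h2 := D_sdiff_ge (G := G) hYW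
      have h3 : ∑ y ∈ Y, dg G W y ≤ 7200 + ∑ x ∈ s.Z, dg G W x := by
        rw [hY, sum_union s.dZY.symm]
        omega
      have h4 : U.card ≤ W.card := card_le_card (sdiff_subset.trans sdiff_subset)
      exact arE hN1 hm0 (arD hR h1 h2 h3 h4) hKW hNZ hW
    rcases hI V G s.A R Y s.w m ρ hdAR hdAY hdRY hKR s.cl s.flex
      (by have := win_ge s.win; omega) hAm hRm hρ with h | ⟨hw, B, T, b1, b2, b3, b4, b5, b6, b7,
        b8, b9⟩
    · exact Or.inl h
    · refine Or.inr ⟨hw, ⟨?_⟩⟩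
      have hBY : Disjoint B Y :=
        disjoint_of_subset_left b2 (disjoint_union_left.2 ⟨hdAY, hdRY⟩)
      have hTY : Disjoint T Y := disjoint_of_subset_left b3 hdRY
      rw [hY, disjoint_union_right] at hBY hTY
      exact
        { A := B
          Z := s.Z ∪ T
          w := s.w + T.card
          cl := b5
          sub := s.sub.trans b1
          AW := b2.trans (union_subset s.AW hRW)
          ZW := union_subset s.ZW (b3.trans hRW)
          dAY := hBY.1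
          dZY := disjoint_union_left.2 ⟨s.dZY, hTY.1⟩
          dAZ := disjoint_union_right.2 ⟨hBY.2, b4⟩
          hang := (s.hang.mono b1).union b6
          flex := by
            rw [← union_assoc]
            exact flex_extend s.flex b1 b6 (disjoint_union_left.2 ⟨hTY.1.symm, hTY.2.symm⟩) b9
          card := by
            have := card_union_le s.Z T
            have e : (k + 1) * (8 * ρ + 7) = k * (8 * ρ + 7) + (8 * ρ + 7) := by ring
            omega
          win := win_step s.win b8 }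
  have hkey : ∀ k ≤ 8 * l, (∃ S : Finset V, S.card = m ∧ Cl G S) ∨
      Nonempty (St G W Y₀ Ah (8 * ρ + 7) k) := by
    intro k
    induction k with
    | zero =>
      intro _
      right
      refine ⟨?_⟩
      exact
        { A := Ah
          Z := ∅
          w := 100
          cl := hAhcl
          sub := subset_rfl
          AW := hAhW
          ZW := empty_subset _
          dAY := hAhY
          dZY := disjoint_empty_left _
          dAZ := disjoint_empty_right _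
          hang := Sharp.Hang_empty _
          flex := by
            intro t ht
            obtain ⟨Y', hY'Y, hY'c⟩ := exists_subset_card_eq (s := Y₀) (n := t) (by omega)
            refine ⟨Y', hY'Y.trans subset_union_left, hY'c, ?_⟩
            intro x hx
            exact (hB₀Y x (hY'Y hx)).trans (dg_mono (hBAh.trans subset_union_left) x)
          card := by simp
          win := by norm_num }
    | succ k ih =>
      intro hk
      rcases ih (by omega) with h | ⟨⟨s⟩⟩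
      · exact Or.inl h
      · rcases hstep k (by omega) s with h | ⟨-, h⟩
        · exact Or.inl h
        · exact Or.inr h
  rcases hkey (8 * l) le_rfl with h | ⟨⟨s⟩⟩
  · exact h
  · rcases hstep (8 * l) le_rfl s with h | ⟨h, -⟩
    · exact h
    · exfalso
      have := win_end s.win
      omega

end Pool.Agent.Lib.MP_d31508_co.Shq
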