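import Pool.Agent.Lib.MP_d31508_co.Shq.Stmts

/-!
# Module Piece of project SHQ
-/

namespace Pool.Agent.Lib.MP_d31508_co.Shq

set_option linter.unusedSectionVars false
set_option linter.unusedVariables false

open Finset Classical
open Pool.Agent.Lib.MP_d31508_co.Asy (dg Cl D)
open Pool.Agent.Lib.MP_d31508_co.Sharp (Ker Hang dg_mono dg_union_disj one_le_dg one_le_dg_iff
  two_le_dg Hang_empty)

namespace Piece

variable {V : Type} [Fintype V] {G : SimpleGraph V}

/-- large gaps: few elements of `P` in a long interval leave a long gap -/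
lemma gap (P : ℕ → Prop) (g : ℕ) : ∀ n u v : ℕ, u < v → P u → P v →
    ((Ioo u v).filter P).card ≤ n → u + n + (n + 1) * g + 1 < v →
    ∃ i i', u ≤ i ∧ i' ≤ v ∧ i + g + 1 < i' ∧ P i ∧ P i' ∧ ∀ j, i < j → j < i' → ¬ P j := by
  intro n
  induction n with
  | zero =>
    intro u v huv hu hv hc hn
    refine ⟨u, v, le_refl _, le_refl _, by omega, hu, hv, ?_⟩
    intro j h1 h2 hj
    have : j ∈ (Ioo u v).filter P := by simp [h1, h2, hj]
    have := card_pos.2 ⟨j, this⟩
    omega
  | succ n ih =>
    intro u v huv hu hv hc hn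
    by_cases hne : ((Ioo u v).filter P).Nonempty
    · set w := ((Ioo u v).filter P).min' hne with hw
      have hwm : w ∈ (Ioo u v).filter P := min'_mem _ _
      have hwm' := hwm
      rw [mem_filter, mem_Ioo] at hwm'
      have hmin : ∀ j, u < j → j < w → ¬ P j := by
        intro j h1 h2 hj
        have : j ∈ (Ioo u v).filter P := by
          simp only [mem_filter, mem_Ioo]
          exact ⟨⟨h1, by omega⟩, hj⟩
        have := min'_le _ _ this
        omega
      by_cases hg : u + g + 1 < w
      · exact ⟨u, w, le_refl _, by omega, hg, hu, hwm'.2, hmin⟩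
      · have hsub : (Ioo w v).filter P ⊆ ((Ioo u v).filter P).erase w := by
          intro j hj
          simp only [mem_filter, mem_Ioo, mem_erase] at hj ⊢
          exact ⟨by omega, ⟨by omega, hj.1.2⟩, hj.2⟩
        have hcard := card_le_card hsub
        rw [card_erase_of_mem hwm] at hcard
        have hex : (n + 1 + 1) * g = (n + 1) * g + g := by ring
        obtain ⟨i, i', h1, h2, h3, h4, h5, h6⟩ := ih w v hwm'.1.2 hwm'.2 hv (by omega) (by omega)
        exact ⟨i, i', by omega, h2, h3, h4, h5, h6⟩
    · refine ⟨u, v, le_refl _, le_refl _, ?_, hu, hv, ?_⟩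
      · have hex : (n + 1 + 1) * g = (n + 1) * g + g := by ring
        omega
      · intro j h1 h2 hj
        exact hne ⟨j, by simp [h1, h2, hj]⟩

/-- inner vertices of the path: the neighbours are the two path neighbours -/
lemma nbr {A Q : Finset V} {t : ℕ → V} {l : ℕ}
    (ht : ∀ i < l, t i ∈ Q ∧ dg G (A ∪ Q) (t i) = 2)
    (hinj : ∀ i < l, ∀ j < l, t i = t j → i = j)
    (hadj : ∀ i, i + 1 < l → G.Adj (t i) (t (i + 1)))
    {i : ℕ} (h0 : 0 < i) (h1 : i + 1 < l) {y : V} (hy : y ∈ A ∪ Q) (hG : G.Adj (t i) y) :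
    y = t (i - 1) ∨ y = t (i + 1) := by
  by_contra hne
  push Not at hne
  have hd := (ht i (by omega)).2
  have ha1 : G.Adj (t i) (t (i - 1)) := by
    have := hadj (i - 1) (by omega)
    rw [show i - 1 + 1 = i by omega] at this
    exact this.symm
  have ha2 := hadj i h1
  have hne12 : t (i - 1) ≠ t (i + 1) := by
    intro h
    have := hinj _ (by omega) _ h1 h
    omega
  have hsub : ({y, t (i - 1), t (i + 1)} : Finset V) ⊆ (A ∪ Q).filter (fun w => G.Adj (t i) w) := by
    intro w hw
    simp only [mem_insert, mem_singleton] at hw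
    rw [mem_filter]
    rcases hw with rfl | rfl | rfl
    · exact ⟨hy, hG⟩
    · exact ⟨mem_union_right _ (ht _ (by omega)).1, ha1⟩
    · exact ⟨mem_union_right _ (ht _ h1).1, ha2⟩
  have h3 : ({y, t (i - 1), t (i + 1)} : Finset V).card = 3 := by
    rw [card_insert_of_notMem, card_pair hne12]
    simp only [mem_insert, mem_singleton, not_or]
    exact hne
  have := card_le_card hsub
  rw [h3] at this
  unfold dg at hd
  omega

/-- two path vertices at distance two are not adjacent -/
lemma not_adj_two {A Q : Finset V} {t : ℕ → V} {l : ℕ}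
    (ht : ∀ i < l, t i ∈ Q ∧ dg G (A ∪ Q) (t i) = 2)
    (hinj : ∀ i < l, ∀ j < l, t i = t j → i = j)
    (hadj : ∀ i, i + 1 < l → G.Adj (t i) (t (i + 1))) (hl : 20 ≤ l)
    {i : ℕ} (h1 : i + 2 < l) : ¬ G.Adj (t i) (t (i + 2)) := by
  intro h
  by_cases h0 : 0 < i
  · rcases nbr ht hinj hadj h0 (by omega) (mem_union_right _ (ht _ h1).1) h with h | h
    · have := hinj _ h1 _ (by omega) h
      omega
    · have := hinj _ h1 _ (by omega) h
      omega
  · rcases nbr ht hinj hadj (i := i + 2) (by omega) (by omega)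
      (mem_union_right _ (ht i (by omega)).1) h.symm with h | h
    · have := hinj _ (by omega) _ (by omega) h
      omega
    · have := hinj _ (by omega) _ (by omega) h
      omega

/-- the second half: the sets `B` and `T` -/
lemma build {A R Q E : Finset V} {t : ℕ → V} {l : ℕ} (hAR : Disjoint A R) (hA : Cl G A)
    (hQ : Q ⊆ R) (hE : E ⊆ R \ Q) (hQE : Hang G A (Q ∪ E))
    (ht : ∀ i < l, t i ∈ Q ∧ dg G (A ∪ Q) (t i) = 2)
    (hinj : ∀ i < l, ∀ j < l, t i = t j → i = j)
    (hadj : ∀ i, i + 1 < l → G.Adj (t i) (t (i + 1)))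
    {u v : ℕ} (hu : u < 3) (hv : v < l) (hvl : l ≤ v + 3) (hl : 20 ≤ l)
    (hPu : 1 ≤ dg G E (t u)) (hPv : 1 ≤ dg G E (t v))
    (hfew : ((Ioo u v).filter (fun i => 1 ≤ dg G E (t i))).card ≤ 4)
    (huv : l ≤ v - u - 1 + 6) :
    ∃ B T : Finset V, A ⊆ B ∧ B ⊆ A ∪ R ∧ T ⊆ R ∧ Disjoint B T ∧ Cl G B ∧ Hang G B T ∧
    B.card + T.card ≤ A.card + Q.card + E.card ∧ l ≤ 5 * T.card + 10 ∧ T.card ≤ l := by
  obtain ⟨i, i', h1, h2, h3, h4, h5, h6⟩ := gap (fun i => 1 ≤ dg G E (t i)) ((l - 11) / 5) 4 u v
    (by omega) hPu hPv (by convert hfew) (by omega)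
  have hdisj : Disjoint (A ∪ Q) E := by
    rw [disjoint_left]
    intro x hx hxE
    have := mem_sdiff.1 (hE hxE)
    rcases mem_union.1 hx with hx | hx
    · exact disjoint_left.1 hAR hx this.1
    · exact this.2 hx
  have hER : E ⊆ R := fun x hx => (mem_sdiff.1 (hE hx)).1
  have hsplit : ∀ x, dg G (A ∪ (Q ∪ E)) x = dg G (A ∪ Q) x + dg G E x := by
    intro x
    rw [← union_assoc]
    exact dg_union_disj hdisj x
  have hClQ : Cl G (A ∪ (Q ∪ E)) := hQE.cl hA
  set T : Finset V := (Ioo i i').image t with hT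
  have hTQ : T ⊆ Q := by
    intro x hx
    obtain ⟨j, hj, rfl⟩ := mem_image.1 hx
    rw [mem_Ioo] at hj
    exact (ht j (by omega)).1
  have hTcard : T.card = i' - i - 1 := by
    rw [hT, card_image_of_injOn, Nat.card_Ioo]
    intro a ha b hb hab
    simp only [coe_Ioo, Set.mem_Ioo] at ha hb
    exact hinj _ (by omega) _ (by omega) hab
  set B : Finset V := (A ∪ (Q ∪ E)) \ T with hB
  have hTsub : T ⊆ A ∪ (Q ∪ E) := fun x hx => mem_union_right _ (mem_union_left _ (hTQ hx))
  have hBT : B ∪ T = A ∪ (Q ∪ E) := sdiff_union_of_subset hTsub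
  have hBTd : Disjoint B T := sdiff_disjoint
  -- neighbours of vertices of `T`
  have hTn : ∀ j, i < j → j < i' → ∀ y ∈ A ∪ (Q ∪ E), G.Adj (t j) y →
      y = t (j - 1) ∨ y = t (j + 1) := by
    intro j hj1 hj2 y hy hG
    rw [← union_assoc] at hy
    rcases mem_union.1 hy with hy | hy
    · exact nbr ht hinj hadj (by omega) (by omega) hy hG
    · exact absurd (one_le_dg hy hG) (h6 j hj1 hj2)
  refine ⟨B, T, ?_, ?_, hTQ.trans hQ, hBTd, ?_, ?_, ?_, ?_, ?_⟩
  · intro x hx
    rw [hB, mem_sdiff]
    exact ⟨mem_union_left _ hx, fun h => disjoint_left.1 hAR hx (hQ (hTQ h))⟩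
  · intro x hx
    rw [hB, mem_sdiff, mem_union, mem_union] at hx
    rcases hx.1 with h | h | h
    · exact mem_union_left _ h
    · exact mem_union_right _ (hQ h)
    · exact mem_union_right _ (hER h)
  · intro y hy
    have hyT : y ∉ T := disjoint_left.1 hBTd hy
    have hyU : y ∈ A ∪ (Q ∪ E) := (mem_sdiff.1 hy).1
    have hsum : dg G (A ∪ (Q ∪ E)) y = dg G B y + dg G T y := by
      rw [← hBT]
      exact dg_union_disj hBTd y
    have hy2 := hClQ y hyU
    by_cases h0 : dg G T y = 0
    · omega
    · obtain ⟨z, hz, hyz⟩ := one_le_dg_iff.1 (Nat.one_le_iff_ne_zero.2 h0)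
      obtain ⟨j, hj, rfl⟩ := mem_image.1 hz
      rw [mem_Ioo] at hj
      have key : y = t i ∨ y = t i' := by
        rcases hTn j hj.1 hj.2 y hyU hyz.symm with h | h
        · left
          by_cases hji : j - 1 = i
          · rw [← hji]; exact h
          · exfalso
            apply hyT
            rw [h]
            exact mem_image_of_mem t (mem_Ioo.2 ⟨by omega, by omega⟩)
        · right
          by_cases hji : j + 1 = i'
          · rw [← hji]; exact h
          · exfalso
            apply hyT
            rw [h]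
            exact mem_image_of_mem t (mem_Ioo.2 ⟨by omega, by omega⟩)
      rcases key with rfl | rfl
      · -- `y = t i`
        have hd : dg G T (t i) ≤ 1 := by
          unfold dg
          apply card_le_one.2
          have hone : ∀ z ∈ T.filter (fun w => G.Adj (t i) w), z = t (i + 1) := by
            intro z hz
            rw [mem_filter] at hz
            obtain ⟨hz1, hz2⟩ := hz
            obtain ⟨k, hk, rfl⟩ := mem_image.1 hz1
            rw [mem_Ioo] at hk
            rcases hTn k hk.1 hk.2 (t i) hyU hz2.symm with h | h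
            · have := hinj _ (by omega) _ (by omega) h
              rw [show k = i + 1 by omega]
            · have := hinj _ (by omega) _ (by omega) h
              omega
          intro a ha b hb
          rw [hone a ha, hone b hb]
        have hdeg := hsplit (t i)
        rw [(ht i (by omega)).2] at hdeg
        omega
      · have hd : dg G T (t i') ≤ 1 := by
          unfold dg
          apply card_le_one.2
          have hone : ∀ z ∈ T.filter (fun w => G.Adj (t i') w), z = t (i' - 1) := by
            intro z hz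
            rw [mem_filter] at hz
            obtain ⟨hz1, hz2⟩ := hz
            obtain ⟨k, hk, rfl⟩ := mem_image.1 hz1
            rw [mem_Ioo] at hk
            rcases hTn k hk.1 hk.2 (t i') hyU hz2.symm with h | h
            · have := hinj _ (by omega) _ (by omega) h
              omega
            · have := hinj _ (by omega) _ (by omega) h
              rw [show k = i' - 1 by omega]
          intro a ha b hb
          rw [hone a ha, hone b hb]
        have hdeg := hsplit (t i')
        rw [(ht i' (by omega)).2] at hdeg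
        omega
  · intro x hx
    rw [hBT]
    exact hClQ x (hTsub hx)
  · have : B.card + T.card = (A ∪ (Q ∪ E)).card := by
      rw [← hBT, card_union_of_disjoint hBTd]
    have h1 := card_union_le A (Q ∪ E)
    have h2 := card_union_le Q E
    omega
  · rw [hTcard]
    omega
  · rw [hTcard]
    omega

end Piece

open Piece in
theorem stPiece (h : StCut) : StPiece := by
  intro V _ G A R Q t l ρ hAR hK hA hQ hH hl ht hinj hadj hone hρ
  -- first cut
  have hnd : ∀ i, i + 2 < l → t i ≠ t (i + 2) := by
    intro i hi he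
    have := hinj _ (by omega) _ hi he
    omega
  obtain ⟨E1, hE1, hE1c, hH1, hb1, x1, x1', hx1⟩ := h V G A R Q (t 0) (t 1) (t 2) ρ hAR hK hQ hH
    (ht 0 (by omega)).1 (ht 1 (by omega)).1 (ht 2 (by omega)).1 (hadj 0 (by omega))
    (hadj 1 (by omega)) (hnd 0 (by omega)) (not_adj_two ht hinj hadj hl (i := 0) (by omega))
    (ht 0 (by omega)).2 (ht 1 (by omega)).2 (ht 2 (by omega)).2 hρ
  have hd1 : Disjoint (A ∪ Q) E1 := by
    rw [disjoint_left]
    intro x hx hxE
    have := mem_sdiff.1 (hE1 hxE)
    rcases mem_union.1 hx with hx | hx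
    · exact disjoint_left.1 hAR hx this.1
    · exact this.2 hx
  -- second cut
  have hcut2 : ∃ E2 : Finset V, E2 ⊆ R \ (Q ∪ E1) ∧ E2.card ≤ 2 * ρ + 2 ∧
      Hang G A (Q ∪ (E1 ∪ E2)) ∧
      (∃ v, v < l ∧ l ≤ v + 3 ∧ 1 ≤ dg G (E1 ∪ E2) (t v)) ∧
      ∃ x x' : V, ∀ y ∈ E2, y ≠ x → y ≠ x' → ∀ i, i + 3 < l → ¬ G.Adj y (t i) := by
    by_cases hbr : 1 ≤ dg G E1 (t (l - 3)) ∨ 1 ≤ dg G E1 (t (l - 2)) ∨ 1 ≤ dg G E1 (t (l - 1))
    · refine ⟨∅, by simp, by simp, by simpa using hH1, ?_, t 0, t 0, by simp⟩
      rw [union_empty]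
      rcases hbr with hbr | hbr | hbr
      · exact ⟨l - 3, by omega, by omega, hbr⟩
      · exact ⟨l - 2, by omega, by omega, hbr⟩
      · exact ⟨l - 1, by omega, by omega, hbr⟩
    · push Not at hbr
      have hdeg : ∀ i, i < l → dg G E1 (t i) < 1 → dg G (A ∪ (Q ∪ E1)) (t i) = 2 := by
        intro i hi h0
        rw [← union_assoc, dg_union_disj hd1, (ht i hi).2]
        omega
      have e1 : l - 3 + 1 = l - 2 := by omega
      have e2 : l - 2 + 1 = l - 1 := by omega
      have e3 : l - 3 + 2 = l - 1 := by omega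
      have a1 := hadj (l - 3) (by omega)
      have a2 := hadj (l - 2) (by omega)
      have a3 := hnd (l - 3) (by omega)
      have a4 := not_adj_two ht hinj hadj hl (i := l - 3) (by omega)
      rw [e1] at a1
      rw [e2] at a2
      rw [e3] at a3 a4
      obtain ⟨E2, hE2, hE2c, hH2, hb2, x2, x2', hx2⟩ := h V G A R (Q ∪ E1) (t (l - 3)) (t (l - 2))
        (t (l - 1)) ρ hAR hK (union_subset hQ (fun x hx => (mem_sdiff.1 (hE1 hx)).1)) hH1
        (mem_union_left _ (ht _ (by omega)).1) (mem_union_left _ (ht _ (by omega)).1)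
        (mem_union_left _ (ht _ (by omega)).1) a1 a2 a3 a4
        (hdeg _ (by omega) hbr.1) (hdeg _ (by omega) hbr.2.1) (hdeg _ (by omega) hbr.2.2) hρ
      refine ⟨E2, hE2, hE2c, by rw [← union_assoc]; exact hH2, ?_, x2, x2', ?_⟩
      · have hm : ∀ x, dg G E2 x ≤ dg G (E1 ∪ E2) x := fun x => dg_mono subset_union_right x
        rcases hb2 with hb | hb | hb
        · exact ⟨l - 3, by omega, by omega, hb.trans (hm _)⟩
        · exact ⟨l - 2, by omega, by omega, hb.trans (hm _)⟩
        · exact ⟨l - 1, by omega, by omega, hb.trans (hm _)⟩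
      · intro y hy hy1 hy2 i hi
        apply hx2 y hy hy1 hy2 (t i) (mem_union_left _ (ht i (by omega)).1)
        · intro h
          have := hinj _ (by omega) _ (by omega) h
          omega
        · intro h
          have := hinj _ (by omega) _ (by omega) h
          omega
        · intro h
          have := hinj _ (by omega) _ (by omega) h
          omega
  obtain ⟨E2, hE2, hE2c, hH2, ⟨v0, hv0, hv0l, hv0b⟩, x2, x2', hx2⟩ := hcut2
  set E := E1 ∪ E2 with hEdef
  have hE : E ⊆ R \ Q := by
    intro x hx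
    rcases mem_union.1 hx with hx | hx
    · exact hE1 hx
    · have := mem_sdiff.1 (hE2 hx)
      exact mem_sdiff.2 ⟨this.1, fun h => this.2 (mem_union_left _ h)⟩
  have hEc : E.card ≤ 4 * ρ + 4 := by
    have := card_union_le E1 E2
    rw [← hEdef] at this
    omega
  -- the first branching vertex
  have hb1' : ∃ u, u < 3 ∧ 1 ≤ dg G E (t u) := by
    have hm : ∀ x, dg G E1 x ≤ dg G E x := fun x => dg_mono subset_union_left x
    rcases hb1 with hb | hb | hb
    · exact ⟨0, by omega, hb.trans (hm _)⟩
    · exact ⟨1, by omega, hb.trans (hm _)⟩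
    · exact ⟨2, by omega, hb.trans (hm _)⟩
  obtain ⟨u, hu3, hub, humax⟩ : ∃ u, u < 3 ∧ 1 ≤ dg G E (t u) ∧
      ∀ j, u < j → j < 3 → ¬ 1 ≤ dg G E (t j) := by
    by_cases h2 : 1 ≤ dg G E (t 2)
    · exact ⟨2, by omega, h2, fun j h1 h2 => by omega⟩
    · by_cases h1 : 1 ≤ dg G E (t 1)
      · refine ⟨1, by omega, h1, fun j h3 h4 => ?_⟩
        rw [show j = 2 by omega]
        exact h2
      · obtain ⟨u, hu, hub⟩ := hb1'
        have hu0 : u = 0 := by
          rcases Nat.lt_or_ge u 1 with h | h
          · omega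
          · exfalso
            rcases Nat.lt_or_ge u 2 with h' | h'
            · rw [show u = 1 by omega] at hub
              exact h1 hub
            · rw [show u = 2 by omega] at hub
              exact h2 hub
        subst hu0
        refine ⟨0, by omega, hub, fun j h3 h4 => ?_⟩
        rcases Nat.lt_or_ge j 2 with h' | h'
        · rw [show j = 1 by omega]
          exact h1
        · rw [show j = 2 by omega]
          exact h2
  -- the last branching vertex
  obtain ⟨v, hvl, hvl3, hvb, hvmin⟩ : ∃ v, v < l ∧ l ≤ v + 3 ∧ 1 ≤ dg G E (t v) ∧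
      ∀ j, l ≤ j + 3 → j < v → ¬ 1 ≤ dg G E (t j) := by
    have hex : ∃ v, v < l ∧ l ≤ v + 3 ∧ 1 ≤ dg G E (t v) := ⟨v0, hv0, hv0l, hv0b⟩
    refine ⟨Nat.find hex, (Nat.find_spec hex).1, (Nat.find_spec hex).2.1,
      (Nat.find_spec hex).2.2, ?_⟩
    intro j h1 h2 h3
    exact Nat.find_min hex h2 ⟨h2.trans (Nat.find_spec hex).1, h1, h3⟩
  -- at most four elements in between
  have hfew : ((Ioo u v).filter (fun i => 1 ≤ dg G E (t i))).card ≤ 4 := by
    set X : Finset V := {x1, x1', x2, x2'} with hX
    have hXc : X.card ≤ 4 := card_le_four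
    have hsub : (Ioo u v).filter (fun i => 1 ≤ dg G E (t i)) ⊆
        X.biUnion (fun x => (range l).filter (fun i => x ∈ R \ Q ∧ G.Adj x (t i))) := by
      intro i hi
      simp only [mem_filter, mem_Ioo] at hi
      obtain ⟨⟨hi1, hi2⟩, hi3⟩ := hi
      have hi0 : 3 ≤ i := by
        by_contra hlt
        exact humax i hi1 (by omega) hi3
      have hil : i + 3 < l := by
        by_contra hlt
        exact hvmin i (by omega) hi2 hi3
      obtain ⟨y, hy, hG⟩ := one_le_dg_iff.1 hi3
      rw [mem_biUnion]
      refine ⟨y, ?_, ?_⟩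
      · rw [hX]
        simp only [mem_insert, mem_singleton]
        by_contra hne
        push Not at hne
        rcases mem_union.1 hy with hy | hy
        · refine hx1 y hy hne.1 hne.2.1 (t i) (ht i (by omega)).1 ?_ ?_ ?_ hG.symm
          · intro h
            have := hinj _ (by omega) _ (by omega) h
            omega
          · intro h
            have := hinj _ (by omega) _ (by omega) h
            omega
          · intro h
            have := hinj _ (by omega) _ (by omega) h
            omega
        · exact hx2 y hy hne.2.2.1 hne.2.2.2 i hil hG.symm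
      · simp only [mem_filter, mem_range]
        exact ⟨by omega, hE hy, hG.symm⟩
    calc _ ≤ _ := card_le_card hsub
      _ ≤ X.card * 1 := by
        apply card_biUnion_le_card_mul
        intro x _
        apply card_le_one.2
        intro a ha b hb
        simp only [mem_filter, mem_range] at ha hb
        exact hone x ha.2.1 a ha.1 b hb.1 ha.2.2 hb.2.2
      _ ≤ 4 := by omega
  obtain ⟨B, T, r1, r2, r3, r4, r5, r6, r7, r8, r9⟩ := build hAR hA hQ hE hH2 ht hinj hadj hu3 hvl
    hvl3 hl hub hvb hfew (by omega)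
  exact ⟨B, T, r1, r2, r3, r4, r5, r6, by omega, r8, r9⟩

end Pool.Agent.Lib.MP_d31508_co.Shq
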