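import Pool.Agent.Lib.MP_d31508_co.Shq.Stmts

set_option linter.unusedSectionVars false

/-!
# Module Susp: a small set hanging on `A` with a long path of vertices of degree two
-/

namespace Pool.Agent.Lib.MP_d31508_co.Shq

namespace Susp

open Finset Classical
open Pool.Agent.Lib.MP_d31508_co.Asy (dg Cl D)
open Pool.Agent.Lib.MP_d31508_co.Sharp

variable {V : Type} [Fintype V] {G : SimpleGraph V} {K K' S : Finset V} {y u : ℕ → V} {s p g : ℕ}

/-- `y 0, ..., y s` is a path in `K` -/
structure IsP (G : SimpleGraph V) (K : Finset V) (y : ℕ → V) (s : ℕ) : Prop where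
  mem : ∀ i ≤ s, y i ∈ K
  inj : ∀ i ≤ s, ∀ j ≤ s, y i = y j → i = j
  adj : ∀ i < s, G.Adj (y i) (y (i + 1))

/-- the set of the vertices `y 0, ..., y s` -/
noncomputable def pset (y : ℕ → V) (s : ℕ) : Finset V := (range (s + 1)).image y

lemma mem_pset {x : V} : x ∈ pset y s ↔ ∃ i ≤ s, y i = x := by
  unfold pset
  simp only [mem_image, mem_range, Nat.lt_succ_iff]

lemma IsP.card (h : IsP G K y s) : (pset y s).card = s + 1 := by
  unfold pset
  rw [card_image_of_injOn, card_range]
  intro i hi j hj hij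
  rw [mem_coe, mem_range] at hi hj
  exact h.inj i (by omega) j (by omega) hij

lemma IsP.sub (h : IsP G K y s) : pset y s ⊆ K := by
  intro x hx
  obtain ⟨i, hi, rfl⟩ := mem_pset.1 hx
  exact h.mem i hi

lemma IsP.le_card (h : IsP G K y s) : s + 1 ≤ K.card := by
  rw [← h.card]
  exact card_le_card h.sub

lemma IsP.rev (h : IsP G K y s) : IsP G K (fun i => y (s - i)) s where
  mem i hi := h.mem _ (by omega)
  inj i hi j hj hij := by
    have := h.inj (s - i) (by omega) (s - j) (by omega) hij
    omega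
  adj i hi := by
    have := h.adj (s - (i + 1)) (by omega)
    rw [show s - (i + 1) + 1 = s - i by omega] at this
    exact this.symm

lemma IsP.seg (h : IsP G K y s) {a b : ℕ} (hab : a ≤ b) (hb : b ≤ s) :
    IsP G K (fun i => y (a + i)) (b - a) where
  mem i hi := h.mem _ (by omega)
  inj i hi j hj hij := by
    have := h.inj (a + i) (by omega) (a + j) (by omega) hij
    omega
  adj i hi := by
    have := h.adj (a + i) (by omega)
    exact this

lemma IsP.mono (h : IsP G K y s) (hK : K ⊆ K') : IsP G K' y s :=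
  ⟨fun i hi => hK (h.mem i hi), h.inj, h.adj⟩

/-- concatenation -/
def cat (y : ℕ → V) (p : ℕ) (u : ℕ → V) : ℕ → V := fun i => if i ≤ p then y i else u (i - (p + 1))

lemma cat_left {i : ℕ} (h : i ≤ p) : cat y p u i = y i := if_pos h

lemma cat_right (j : ℕ) : cat y p u (p + 1 + j) = u j := by
  unfold cat
  rw [if_neg (by omega), Nat.add_sub_cancel_left]

lemma IsP.cat (h : IsP G K y p) (h' : IsP G K u g) (hd : ∀ i ≤ p, ∀ j ≤ g, y i ≠ u j)
    (ha : G.Adj (y p) (u 0)) : IsP G K (cat y p u) (p + 1 + g) where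
  mem i hi := by
    rcases Nat.lt_or_ge p i with h1 | h1
    · obtain ⟨j, rfl⟩ : ∃ j, i = p + 1 + j := ⟨i - (p + 1), by omega⟩
      rw [cat_right]
      exact h'.mem j (by omega)
    · rw [cat_left h1]
      exact h.mem i h1
  inj i hi j hj hij := by
    rcases Nat.lt_or_ge p i with h1 | h1 <;> rcases Nat.lt_or_ge p j with h2 | h2
    · obtain ⟨a, rfl⟩ : ∃ a, i = p + 1 + a := ⟨i - (p + 1), by omega⟩
      obtain ⟨b, rfl⟩ : ∃ b, j = p + 1 + b := ⟨j - (p + 1), by omega⟩
      rw [cat_right, cat_right] at hij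
      have := h'.inj a (by omega) b (by omega) hij
      omega
    · obtain ⟨a, rfl⟩ : ∃ a, i = p + 1 + a := ⟨i - (p + 1), by omega⟩
      rw [cat_right, cat_left h2] at hij
      exact absurd hij.symm (hd j h2 a (by omega))
    · obtain ⟨b, rfl⟩ : ∃ b, j = p + 1 + b := ⟨j - (p + 1), by omega⟩
      rw [cat_right, cat_left h1] at hij
      exact absurd hij (hd i h1 b (by omega))
    · rw [cat_left h1, cat_left h2] at hij
      exact h.inj i h1 j h2 hij
  adj i hi := by
    rcases Nat.lt_trichotomy i p with h1 | h1 | h1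
    · rw [cat_left h1.le, cat_left (show i + 1 ≤ p by omega)]
      exact h.adj i h1
    · subst h1
      rw [cat_left le_rfl]
      have := cat_right (y := y) (u := u) (p := i) 0
      rw [add_zero] at this
      rw [this]
      exact ha
    · obtain ⟨a, rfl⟩ : ∃ a, i = p + 1 + a := ⟨i - (p + 1), by omega⟩
      rw [cat_right, add_assoc, cat_right]
      exact h'.adj a (by omega)

/-- a path both ends of which have a neighbour in the root -/
lemma path_hang (h : IsP G K y s) (hs : 1 ≤ s) (hd : Disjoint S K) (h0 : 1 ≤ dg G S (y 0))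
    (h1 : 1 ≤ dg G S (y s)) : Hang G S (pset y s) := by
  intro x hx
  obtain ⟨i, hi, rfl⟩ := mem_pset.1 hx
  rcases Nat.eq_zero_or_pos i with rfl | hi0
  · obtain ⟨q, hq, hqa⟩ := one_le_dg_iff.1 h0
    refine two_le_dg (y := q) (z := y 1) (mem_union_left _ hq)
      (mem_union_right _ (mem_pset.2 ⟨1, hs, rfl⟩)) ?_ hqa (h.adj 0 hs)
    rintro rfl
    exact disjoint_left.1 hd hq (h.mem 1 hs)
  · have hp : G.Adj (y i) (y (i - 1)) := by
      have := h.adj (i - 1) (by omega)
      rw [show i - 1 + 1 = i by omega] at this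
      exact this.symm
    have hm : y (i - 1) ∈ S ∪ pset y s :=
      mem_union_right _ (mem_pset.2 ⟨i - 1, by omega, rfl⟩)
    rcases Nat.lt_or_ge i s with h2 | h2
    · refine two_le_dg (y := y (i - 1)) (z := y (i + 1)) hm
        (mem_union_right _ (mem_pset.2 ⟨i + 1, by omega, rfl⟩)) ?_ hp (h.adj i h2)
      intro h3
      have := h.inj _ (by omega) _ (by omega) h3
      omega
    · have hi' : i = s := by omega
      subst hi'
      obtain ⟨q, hq, hqa⟩ := one_le_dg_iff.1 h1
      refine two_le_dg (y := q) (z := y (i - 1)) (mem_union_left _ hq) hm ?_ hqa hp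
      rintro rfl
      exact disjoint_left.1 hd hq (h.mem _ (by omega))

/-- a cycle -/
lemma cyc_hang (h : IsP G K y s) (hs : 2 ≤ s) (ha : G.Adj (y 0) (y s)) (S : Finset V) :
    Hang G S (pset y s) := by
  intro x hx
  obtain ⟨i, hi, rfl⟩ := mem_pset.1 hx
  rcases Nat.eq_zero_or_pos i with rfl | hi0
  · refine two_le_dg (y := y s) (z := y 1) (mem_union_right _ (mem_pset.2 ⟨s, le_rfl, rfl⟩))
      (mem_union_right _ (mem_pset.2 ⟨1, by omega, rfl⟩)) ?_ ha (h.adj 0 (by omega))
    intro h3
    have := h.inj _ le_rfl _ (by omega) h3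
    omega
  · have hp : G.Adj (y i) (y (i - 1)) := by
      have := h.adj (i - 1) (by omega)
      rw [show i - 1 + 1 = i by omega] at this
      exact this.symm
    have hm : y (i - 1) ∈ S ∪ pset y s :=
      mem_union_right _ (mem_pset.2 ⟨i - 1, by omega, rfl⟩)
    rcases Nat.lt_or_ge i s with h2 | h2
    · refine two_le_dg (y := y (i - 1)) (z := y (i + 1)) hm
        (mem_union_right _ (mem_pset.2 ⟨i + 1, by omega, rfl⟩)) ?_ hp (h.adj i h2)
      intro h3
      have := h.inj _ (by omega) _ (by omega) h3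
      omega
    · have hi' : i = s := by omega
      subst hi'
      refine two_le_dg (y := y 0) (z := y (i - 1))
        (mem_union_right _ (mem_pset.2 ⟨0, by omega, rfl⟩)) hm ?_ ha.symm hp
      intro h3
      have := h.inj _ (by omega) _ (by omega) h3
      omega

/-- longest paths -/
lemma exists_longest (G : SimpleGraph V) (K : Finset V) (P : V → Prop) {y₀ : ℕ → V}
    (h0 : IsP G K y₀ 0) (hP : P (y₀ 0)) :
    ∃ s y, IsP G K y s ∧ P (y 0) ∧ ∀ s' y', IsP G K y' s' → P (y' 0) → s' ≤ s := by
  set Pr : ℕ → Prop := fun s => ∃ y, IsP G K y s ∧ P (y 0) with hPr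
  have h1 : Pr (Nat.findGreatest Pr K.card) :=
    Nat.findGreatest_spec (P := Pr) (Nat.zero_le _) ⟨y₀, h0, hP⟩
  obtain ⟨y, hy, hyP⟩ := h1
  refine ⟨_, y, hy, hyP, ?_⟩
  intro s' y' hy' hP'
  have := hy'.le_card
  exact Nat.le_findGreatest (by omega) ⟨y', hy', hP'⟩

lemma dg_zero_iff {X : Finset V} {x : V} : dg G X x = 0 ↔ ∀ z ∈ X, ¬ G.Adj x z := by
  rw [← not_iff_not, ← ne_eq, ← Nat.one_le_iff_ne_zero, one_le_dg_iff]
  push Not
  rfl

lemma dg_le_of_sub {X T : Finset V} {x : V} (h : ∀ z ∈ X, G.Adj x z → z ∈ T) :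
    dg G X x ≤ T.card := by
  unfold dg
  refine card_le_card fun z hz => ?_
  rw [mem_filter] at hz
  exact h z hz.1 hz.2

/-- the data of the proof -/
structure Dat (G : SimpleGraph V) (A R Ah Q K Rt : Finset V) (w : ℕ) : Prop where
  QR : Q ⊆ R
  QA : Hang G A Q
  AAh : A ⊆ Ah
  K_eq : K = Q \ Ah
  Rt_eq : Rt = A ∪ (Q ∩ Ah)
  AR : Disjoint A R
  pa : ∀ X : Finset V, X ⊆ R \ Ah → X.Nonempty → Hang G Ah X → w + 2 ≤ X.card
  pb : ∀ X : Finset V, X ⊆ Q → ¬ X ⊆ Ah → Hang G A X → X = Q

variable {A R Ah Q Rt : Finset V} {w : ℕ}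

/-- the conclusion -/
def Goal (G : SimpleGraph V) (A Q K : Finset V) (w : ℕ) : Prop :=
  ∃ t : ℕ → V, (∀ i < w / 2, t i ∈ K ∧ dg G (A ∪ Q) (t i) = 2) ∧
    (∀ i < w / 2, ∀ j < w / 2, t i = t j → i = j) ∧
    (∀ i, i + 1 < w / 2 → G.Adj (t i) (t (i + 1)))

namespace Dat

variable (h : Dat G A R Ah Q K Rt w)

include h

lemma KQ : K ⊆ Q := by rw [h.K_eq]; exact sdiff_subset

lemma KAh : Disjoint Ah K := by rw [h.K_eq]; exact disjoint_sdiff

lemma RtAh : Rt ⊆ Ah := by
  rw [h.Rt_eq]
  exact union_subset h.AAh inter_subset_right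

lemma RtK : Disjoint Rt K := disjoint_of_subset_left h.RtAh h.KAh

lemma AK : Disjoint A K := disjoint_of_subset_left h.AAh h.KAh

lemma AQ : Disjoint A Q := disjoint_of_subset_right h.QR h.AR

lemma union_eq : A ∪ Q = Rt ∪ K := by
  rw [h.Rt_eq, h.K_eq]
  ext x
  simp only [mem_union, mem_inter, mem_sdiff]
  tauto

lemma dgU (x : V) : dg G (A ∪ Q) x = dg G Rt x + dg G K x := by
  rw [h.union_eq, dg_union_disj h.RtK]

lemma KR : K ⊆ R \ Ah := by
  rw [h.K_eq]
  exact sdiff_subset_sdiff h.QR Subset.rfl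

lemma two_le {x : V} (hx : x ∈ K) : 2 ≤ dg G (A ∪ Q) x := h.QA x (h.KQ hx)

lemma big {X : Finset V} (hX : X ⊆ K) (hn : X.Nonempty) (hh : Hang G Rt X) : w + 2 ≤ X.card :=
  h.pa X (hX.trans h.KR) hn (hh.mono h.RtAh)

lemma all {X : Finset V} (hX : X ⊆ K) (hn : X.Nonempty) (hh : Hang G A X) : X = Q := by
  refine h.pb X (hX.trans h.KQ) ?_ hh
  intro h1
  obtain ⟨x, hx⟩ := hn
  exact disjoint_left.1 h.KAh (h1 hx) (hX hx)

/-- the case of a cycle -/
lemma case_cycle {z : ℕ → V} {s : ℕ} (hz : IsP G K z s) (hs : 2 ≤ s)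
    (ha : G.Adj (z 0) (z s)) : Goal G A Q K w := by
  have hne : (pset z s).Nonempty := ⟨z 0, mem_pset.2 ⟨0, by omega, rfl⟩⟩
  have hQ : pset z s = Q := h.all hz.sub hne (cyc_hang hz hs ha A)
  have hw : w + 2 ≤ s + 1 := by
    rw [← hz.card]
    exact h.big hz.sub hne (cyc_hang hz hs ha Rt)
  have hQc : Q.card = s + 1 := by rw [← hQ, hz.card]
  -- no chords
  have hch : ∀ a b, a + 2 ≤ b → b ≤ s → G.Adj (z a) (z b) → a = 0 ∧ b = s := by
    intro a b hab hbs hadj
    have h1 := hz.seg (show a ≤ b by omega) hbs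
    have h2 : pset (fun i => z (a + i)) (b - a) = Q := by
      refine h.all h1.sub ⟨z a, mem_pset.2 ⟨0, by omega, rfl⟩⟩ (cyc_hang h1 (by omega) ?_ A)
      show G.Adj (z (a + 0)) (z (a + (b - a)))
      rw [add_zero, show a + (b - a) = b by omega]
      exact hadj
    have h3 := h1.card
    rw [h2, hQc] at h3
    omega
  -- degrees inside the cycle
  have hdQ : ∀ a ≤ s, dg G Q (z a) ≤ 2 := by
    intro a has
    have h1 : dg G Q (z a) ≤ ({if a = 0 then z s else z (a - 1),
        if a = s then z 0 else z (a + 1)} : Finset V).card := by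
      refine dg_le_of_sub ?_
      intro x hx hadj
      rw [← hQ, mem_pset] at hx
      obtain ⟨b, hb, rfl⟩ := hx
      rw [mem_insert, mem_singleton]
      rcases Nat.lt_trichotomy a b with h2 | h2 | h2
      · rcases Nat.lt_or_ge b (a + 2) with h3 | h3
        · right
          rw [if_neg (by omega), show b = a + 1 by omega]
        · obtain ⟨h4, h5⟩ := hch a b h3 hb hadj
          left
          rw [if_pos h4, h5]
      · rw [h2] at hadj
        exact absurd hadj (G.loopless.irrefl _)
      · rcases Nat.lt_or_ge a (b + 2) with h3 | h3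
        · left
          rw [if_neg (by omega), show a - 1 = b by omega]
        · obtain ⟨h4, h5⟩ := hch b a h3 has hadj.symm
          right
          rw [if_pos h5, h4]
    exact h1.trans (card_le_two)
  -- at most one vertex has a neighbour in `A`
  have hone : ∀ a b, a < b → b ≤ s → 1 ≤ dg G A (z a) → 1 ≤ dg G A (z b) → False := by
    intro a b hab hbs ha1 hb1
    have h1 := hz.seg hab.le hbs
    have h2 : pset (fun i => z (a + i)) (b - a) = Q := by
      refine h.all h1.sub ⟨z a, mem_pset.2 ⟨0, by omega, rfl⟩⟩ (path_hang h1 (by omega) h.AK ?_ ?_)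
      · exact ha1
      · show 1 ≤ dg G A (z (a + (b - a)))
        rw [show a + (b - a) = b by omega]
        exact hb1
    have h3 := h1.card
    rw [h2, hQc] at h3
    have ha0 : a = 0 := by omega
    have hbs' : b = s := by omega
    subst ha0 hbs'
    have hne' : z 0 ≠ z b := by
      intro h4
      have := hz.inj _ (by omega) _ le_rfl h4
      omega
    have h4 : ({z 0, z b} : Finset V) = Q := by
      refine h.all ?_ ⟨z 0, mem_insert_self _ _⟩ ?_
      · intro x hx
        rw [mem_insert, mem_singleton] at hx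
        rcases hx with rfl | rfl
        · exact hz.mem _ (by omega)
        · exact hz.mem _ le_rfl
      · intro x hx
        rw [mem_insert, mem_singleton] at hx
        rcases hx with rfl | rfl
        · obtain ⟨q, hq, hqa⟩ := one_le_dg_iff.1 ha1
          refine two_le_dg (y := q) (z := z b) (mem_union_left _ hq)
            (mem_union_right _ (by simp)) ?_ hqa ha
          rintro rfl
          exact disjoint_left.1 h.AK hq (hz.mem _ le_rfl)
        · obtain ⟨q, hq, hqa⟩ := one_le_dg_iff.1 hb1
          refine two_le_dg (y := q) (z := z 0) (mem_union_left _ hq)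
            (mem_union_right _ (by simp)) ?_ hqa ha.symm
          rintro rfl
          exact disjoint_left.1 h.AK hq (hz.mem _ (by omega))
    have h5 : ({z 0, z b} : Finset V).card = 2 := card_pair hne'
    rw [h4, hQc] at h5
    omega
  -- the exceptional vertex
  obtain ⟨p, hp⟩ : ∃ p, ∀ a ≤ s, a ≠ p → dg G A (z a) = 0 := by
    by_cases h1 : ∃ p ≤ s, 1 ≤ dg G A (z p)
    · obtain ⟨p, hps, hp⟩ := h1
      refine ⟨p, fun a ha' hap => ?_⟩
      by_contra h2
      have h3 : 1 ≤ dg G A (z a) := by omega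
      rcases Nat.lt_or_ge a p with h4 | h4
      · exact hone a p h4 hps h3 hp
      · exact hone p a (by omega) ha' hp h3
    · push Not at h1
      refine ⟨s + 1, fun a ha' _ => ?_⟩
      have := h1 a ha'
      omega
  have hdeg : ∀ a ≤ s, a ≠ p → dg G (A ∪ Q) (z a) = 2 := by
    intro a has hap
    have h1 := h.two_le (hz.mem a has)
    have h2 := dg_union_disj (G := G) h.AQ (z a)
    have h3 := hp a has hap
    have h4 := hdQ a has
    omega
  rcases Nat.lt_or_ge p (w / 2) with h1 | h1
  · refine ⟨fun i => z (p + 1 + i), ?_, ?_, ?_⟩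
    · intro i hi
      exact ⟨hz.mem _ (by omega), hdeg _ (by omega) (by omega)⟩
    · intro i hi j hj hij
      have := hz.inj (p + 1 + i) (by omega) (p + 1 + j) (by omega) hij
      omega
    · intro i hi
      exact hz.adj (p + 1 + i) (by omega)
  · refine ⟨z, ?_, ?_, ?_⟩
    · intro i hi
      exact ⟨hz.mem _ (by omega), hdeg _ (by omega) (by omega)⟩
    · intro i hi j hj hij
      exact hz.inj i (by omega) j (by omega) hij
    · intro i hi
      exact hz.adj i (by omega)

/-- the end of a longest path without chords -/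
lemma end_deg {y : ℕ → V} {s : ℕ} (hy : IsP G K y s)
    (hmax : ∀ s' y', IsP G K y' s' → s' ≤ s)
    (hnc : ∀ a b, a + 2 ≤ b → b ≤ s → ¬ G.Adj (y a) (y b)) :
    1 ≤ s ∧ dg G (A ∪ Q) (y s) = 2 ∧ 1 ≤ dg G Rt (y s) := by
  have h1 : dg G K (y s) ≤ ({y (s - 1)} : Finset V).card := by
    refine dg_le_of_sub ?_
    intro x hx hadj
    rw [mem_singleton]
    by_cases h2 : x ∈ pset y s
    · obtain ⟨b, hb, rfl⟩ := mem_pset.1 h2
      rcases Nat.lt_or_ge s (b + 2) with h3 | h3
      · rcases Nat.lt_or_ge b s with h4 | h4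
        · rw [show s - 1 = b by omega]
        · rw [show b = s by omega] at hadj
          exact absurd hadj (G.loopless.irrefl _)
      · exact absurd hadj.symm (hnc b s h3 le_rfl)
    · exfalso
      have h3 : IsP G K (cat y s fun _ => x) (s + 1 + 0) := by
        refine hy.cat ⟨fun i _ => hx, fun i hi j hj _ => by omega, fun i hi => by omega⟩ ?_ hadj
        intro i hi j _ hij
        exact h2 (mem_pset.2 ⟨i, hi, hij⟩)
      have := hmax _ _ h3
      omega
  rw [card_singleton] at h1
  have h2 := h.two_le (hy.mem s le_rfl)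
  have h3 := h.dgU (y s)
  have h4 : dg G Rt (y s) ≤ 1 := by
    by_contra h5
    have h6 : w + 2 ≤ ({y s} : Finset V).card := by
      refine h.big (by
        intro x hx
        rw [mem_singleton] at hx
        rw [hx]
        exact hy.mem s le_rfl) (singleton_nonempty _) ?_
      intro x hx
      rw [mem_singleton] at hx
      subst hx
      exact (show 2 ≤ dg G Rt (y s) by omega).trans (dg_mono subset_union_left _)
    rw [card_singleton] at h6
    omega
  refine ⟨?_, by omega, by omega⟩
  by_contra h5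
  have hs : s = 0 := by omega
  subst hs
  have h6 : dg G K (y 0) = 0 := by
    rw [dg_zero_iff]
    intro z hz hadj
    have h7 : IsP G K (cat y 0 fun _ => z) (0 + 1 + 0) := by
      refine hy.cat ⟨fun i _ => hz, fun i hi j hj _ => by omega, fun i hi => by omega⟩ ?_ hadj
      intro i hi j _ hij
      have : i = 0 := by omega
      rw [this] at hij
      rw [hij] at hadj
      exact G.loopless.irrefl _ hadj
    have := hmax _ _ h7
    omega
  omega

/-- the case of a longest path without chords -/
lemma case_path {y : ℕ → V} {s : ℕ} (hy : IsP G K y s)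
    (hmax : ∀ s' y', IsP G K y' s' → s' ≤ s)
    (hnc : ∀ a b, a + 2 ≤ b → b ≤ s → ¬ G.Adj (y a) (y b)) : Goal G A Q K w := by
  obtain ⟨hs1, hs2, hs3⟩ := h.end_deg hy hmax hnc
  obtain ⟨-, ht2, ht3⟩ := h.end_deg hy.rev hmax (by
    intro a b hab hb hadj
    exact hnc (s - b) (s - a) (by omega) (by omega) hadj.symm)
  rw [Nat.sub_self] at ht2 ht3
  by_cases hB : ∃ p ≤ s, 3 ≤ dg G (A ∪ Q) (y p)
  swap
  · -- all degrees two
    push Not at hB
    have h1 : w + 2 ≤ s + 1 := by
      rw [← hy.card]
      exact h.big hy.sub ⟨y 0, mem_pset.2 ⟨0, by omega, rfl⟩⟩ (path_hang hy hs1 h.RtK ht3 hs3)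
    refine ⟨y, ?_, ?_, ?_⟩
    · intro i hi
      have h2 := h.two_le (hy.mem i (by omega))
      have h3 := hB i (by omega)
      exact ⟨hy.mem i (by omega), by omega⟩
    · intro i hi j hj hij
      exact hy.inj i (by omega) j (by omega) hij
    · intro i hi
      exact hy.adj i (by omega)
  -- the last vertex of degree at least three
  obtain ⟨p, hps, hp3, hplast⟩ : ∃ p ≤ s, 3 ≤ dg G (A ∪ Q) (y p) ∧
      ∀ i, p < i → i ≤ s → dg G (A ∪ Q) (y i) = 2 := by
    set P : ℕ → Prop := fun p => 3 ≤ dg G (A ∪ Q) (y p) with hP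
    obtain ⟨p₀, hp₀, hp₀'⟩ := hB
    refine ⟨Nat.findGreatest P s, Nat.findGreatest_le s,
      Nat.findGreatest_spec (P := P) hp₀ hp₀', ?_⟩
    intro i hi his
    have h1 : ¬ P i := Nat.findGreatest_is_greatest hi his
    have h2 := h.two_le (hy.mem i his)
    have h3 : ¬ 3 ≤ dg G (A ∪ Q) (y i) := h1
    omega
  have hp0 : 0 < p := by
    rcases Nat.eq_zero_or_pos p with h1 | h1
    · rw [h1] at hp3
      omega
    · exact h1
  have hpS : p < s := by
    rcases Nat.lt_or_ge p s with h1 | h1
    · exact h1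
    · rw [show p = s by omega] at hp3
      omega
  -- the claim
  suffices hcl : w + 1 ≤ 2 * (s - p) by
    refine ⟨fun i => y (s - i), ?_, ?_, ?_⟩
    · intro i hi
      exact ⟨hy.mem _ (by omega), hplast _ (by omega) (by omega)⟩
    · intro i hi j hj hij
      have := hy.inj (s - i) (by omega) (s - j) (by omega) hij
      omega
    · intro i hi
      have := hy.adj (s - (i + 1)) (by omega)
      rw [show s - (i + 1) + 1 = s - i by omega] at this
      exact this.symm
  -- a third neighbour of `y p`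
  obtain ⟨x, hxU, hpx, hx1, hx2⟩ : ∃ x ∈ A ∪ Q, G.Adj (y p) x ∧ x ≠ y (p - 1) ∧
      x ≠ y (p + 1) := by
    by_contra hcon
    push Not at hcon
    have h1 : dg G (A ∪ Q) (y p) ≤ ({y (p - 1), y (p + 1)} : Finset V).card := by
      refine dg_le_of_sub ?_
      intro z hz hadj
      rw [mem_insert, mem_singleton]
      by_cases h2 : z = y (p - 1)
      · exact Or.inl h2
      · exact Or.inr (hcon z hz hadj h2)
    have h2 := card_le_two (a := y (p - 1)) (b := y (p + 1))
    omega
  rw [h.union_eq, mem_union] at hxU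
  rcases hxU with hxR | hxK
  · have h1 := hy.seg hps le_rfl
    have h2 : w + 2 ≤ s - p + 1 := by
      rw [← h1.card]
      refine h.big h1.sub ⟨y p, mem_pset.2 ⟨0, by omega, rfl⟩⟩
        (path_hang h1 (by omega) h.RtK ?_ ?_)
      · exact one_le_dg hxR hpx
      · show 1 ≤ dg G Rt (y (p + (s - p)))
        rw [show p + (s - p) = s by omega]
        exact hs3
    omega
  -- the third neighbour is outside of the path
  have hxP : x ∉ pset y s := by
    intro h1
    obtain ⟨b, hb, rfl⟩ := mem_pset.1 h1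
    rcases Nat.lt_trichotomy b p with h2 | h2 | h2
    · rcases Nat.lt_or_ge p (b + 2) with h3 | h3
      · exact hx1 (by rw [show p - 1 = b by omega])
      · exact hnc b p h3 hps hpx.symm
    · rw [h2] at hpx
      exact G.loopless.irrefl _ hpx
    · rcases Nat.lt_or_ge b (p + 2) with h3 | h3
      · exact hx2 (by rw [show p + 1 = b by omega])
      · exact hnc p b h3 hb hpx
  -- the longest path from `x` outside
  obtain ⟨g, u, hu, hu0, humax⟩ := exists_longest G (K \ pset y s) (fun z => z = x)
    (y₀ := fun _ => x) ⟨fun i _ => mem_sdiff.2 ⟨hxK, hxP⟩, fun i hi j hj _ => by omega,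
      fun i hi => by omega⟩ rfl
  have huK : IsP G K u g := hu.mono sdiff_subset
  have hyu : ∀ i ≤ s, ∀ j ≤ g, y i ≠ u j := by
    intro i hi j hj hij
    have h1 := (mem_sdiff.1 (hu.mem j hj)).2
    exact h1 (mem_pset.2 ⟨i, hi, hij⟩)
  -- the two concatenated paths
  have hc : IsP G K (cat y p u) (p + 1 + g) := by
    refine IsP.cat ⟨fun i hi => hy.mem i (by omega), fun i hi j hj => hy.inj i (by omega) j
      (by omega), fun i hi => hy.adj i (by omega)⟩ huK (fun i hi => hyu i (by omega)) ?_
    rw [hu0]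
    exact hpx
  have hge : g + 1 ≤ s - p := by
    have := hmax _ _ hc
    omega
  set z : ℕ → V := fun i => y (s - i) with hz
  have hd : IsP G K (cat z (s - p) u) (s - p + 1 + g) := by
    have hr := hy.rev
    refine IsP.cat ⟨fun i hi => hr.mem i (by omega), fun i hi j hj => hr.inj i (by omega) j
      (by omega), fun i hi => hr.adj i (by omega)⟩ huK (fun i hi => hyu (s - i) (by omega)) ?_
    rw [hu0]
    show G.Adj (y (s - (s - p))) x
    rw [show s - (s - p) = p by omega]
    exact hpx
  -- the neighbours of the end of the outer path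
  have hend : dg G K (u g) ≤ ({if g = 0 then y p else u (g - 1)} : Finset V).card := by
    refine dg_le_of_sub ?_
    intro b hb hadj
    rw [mem_singleton]
    by_contra hne
    by_cases hbP : b ∈ pset y s
    · obtain ⟨j, hj, rfl⟩ := mem_pset.1 hbP
      rcases Nat.lt_or_ge p j with h1 | h1
      · -- the path through `y j, ..., y p`
        have h2 := hd.seg (show s - j ≤ s - p + 1 + g by omega) le_rfl
        have h3 : pset (fun i => cat z (s - p) u (s - j + i)) (s - p + 1 + g - (s - j)) = Q := by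
          refine h.all h2.sub ⟨_, mem_pset.2 ⟨0, by omega, rfl⟩⟩ (cyc_hang h2 (by omega) ?_ A)
          show G.Adj (cat z (s - p) u (s - j + 0)) (cat z (s - p) u (s - j +
            (s - p + 1 + g - (s - j))))
          rw [show s - j + (s - p + 1 + g - (s - j)) = s - p + 1 + g by omega, cat_right,
            cat_left (by omega)]
          show G.Adj (y (s - (s - j + 0))) (u g)
          rw [show s - (s - j + 0) = j by omega]
          exact hadj.symm
        have h4 : y 0 ∈ Q := h.KQ (hy.mem 0 (by omega))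
        rw [← h3, mem_pset] at h4
        obtain ⟨i, hi, hi'⟩ := h4
        rcases Nat.lt_or_ge (s - p) (s - j + i) with h5 | h5
        · obtain ⟨c, hc'⟩ : ∃ c, s - j + i = s - p + 1 + c := ⟨s - j + i - (s - p + 1), by omega⟩
          rw [hc', cat_right] at hi'
          exact hyu 0 (by omega) c (by omega) hi'.symm
        · rw [cat_left h5] at hi'
          have := hy.inj (s - (s - j + i)) (by omega) 0 (by omega) hi'
          omega
      · -- the path through `y p, ..., y j`
        have hjp : j + 2 ≤ p + 1 + g := by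
          rcases Nat.lt_or_ge j p with h2 | h2
          · omega
          · rcases Nat.eq_zero_or_pos g with h3 | h3
            · exfalso
              apply hne
              rw [if_pos h3, show j = p by omega]
            · omega
        have h2 := hc.seg (show j ≤ p + 1 + g by omega) le_rfl
        have h3 : pset (fun i => cat y p u (j + i)) (p + 1 + g - j) = Q := by
          refine h.all h2.sub ⟨_, mem_pset.2 ⟨0, by omega, rfl⟩⟩ (cyc_hang h2 (by omega) ?_ A)
          show G.Adj (cat y p u (j + 0)) (cat y p u (j + (p + 1 + g - j)))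
          rw [show j + (p + 1 + g - j) = p + 1 + g by omega, cat_right, add_zero, cat_left h1]
          exact hadj.symm
        have h4 : y s ∈ Q := h.KQ (hy.mem s le_rfl)
        rw [← h3, mem_pset] at h4
        obtain ⟨i, hi, hi'⟩ := h4
        rcases Nat.lt_or_ge p (j + i) with h5 | h5
        · obtain ⟨c, hc'⟩ : ∃ c, j + i = p + 1 + c := ⟨j + i - (p + 1), by omega⟩
          rw [hc', cat_right] at hi'
          exact hyu s le_rfl c (by omega) hi'.symm
        · rw [cat_left h5] at hi'
          have := hy.inj (j + i) (by omega) s le_rfl hi'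
          omega
    · -- outside of the path
      by_cases hbu : b ∈ pset u g
      · obtain ⟨a, ha, rfl⟩ := mem_pset.1 hbu
        have hag : a + 2 ≤ g := by
          rcases Nat.lt_or_ge g (a + 2) with h1 | h1
          · exfalso
            rcases Nat.lt_or_ge a g with h2 | h2
            · apply hne
              rw [if_neg (by omega), show g - 1 = a by omega]
            · rw [show a = g by omega] at hadj
              exact G.loopless.irrefl _ hadj
          · exact h1
        have h2 := huK.seg (show a ≤ g by omega) le_rfl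
        have h3 : pset (fun i => u (a + i)) (g - a) = Q := by
          refine h.all h2.sub ⟨_, mem_pset.2 ⟨0, by omega, rfl⟩⟩ (cyc_hang h2 (by omega) ?_ A)
          show G.Adj (u (a + 0)) (u (a + (g - a)))
          rw [show a + (g - a) = g by omega, add_zero]
          exact hadj.symm
        have h4 : y 0 ∈ Q := h.KQ (hy.mem 0 (by omega))
        rw [← h3, mem_pset] at h4
        obtain ⟨i, hi, hi'⟩ := h4
        exact hyu 0 (by omega) (a + i) (by omega) hi'.symm
      · have h3 : IsP G (K \ pset y s) (cat u g fun _ => b) (g + 1 + 0) := by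
          refine hu.cat ⟨fun i _ => mem_sdiff.2 ⟨hb, hbP⟩, fun i hi j hj _ => by omega,
            fun i hi => by omega⟩ ?_ hadj
          intro i hi j _ hij
          exact hbu (mem_pset.2 ⟨i, hi, hij⟩)
        have h4 := humax _ _ h3 (by rw [cat_left (Nat.zero_le _)]; exact hu0)
        omega
  rw [card_singleton] at hend
  have hug : 1 ≤ dg G Rt (u g) := by
    have h1 := h.two_le (huK.mem g le_rfl)
    have h2 := h.dgU (u g)
    omega
  have hfin : w + 2 ≤ s - p + 1 + g + 1 := by
    rw [← hd.card]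
    refine h.big hd.sub ⟨_, mem_pset.2 ⟨0, by omega, rfl⟩⟩
      (path_hang hd (by omega) h.RtK ?_ ?_)
    · rw [cat_left (Nat.zero_le _)]
      show 1 ≤ dg G Rt (y (s - 0))
      exact hs3
    · rw [cat_right]
      exact hug
  omega

/-- the last conclusion -/
lemma last {t : ℕ → V} (ht : ∀ i < w / 2, t i ∈ K)
    (hinj : ∀ i < w / 2, ∀ j < w / 2, t i = t j → i = j)
    (hadj : ∀ i, i + 1 < w / 2 → G.Adj (t i) (t (i + 1))) {x : V} (hx : x ∈ R \ Q) {i j : ℕ}
    (hij : i < j) (hj : j < w / 2) (h1 : G.Adj x (t i)) (h2 : G.Adj x (t j)) : False := by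
  have hp : IsP G K (fun k => t (i + k)) (j - i) := by
    refine ⟨fun k hk => ht _ (by omega), ?_, fun k hk => hadj (i + k) (by omega)⟩
    intro a ha b hb hab
    have := hinj (i + a) (by omega) (i + b) (by omega) hab
    omega
  rw [mem_sdiff] at hx
  by_cases hxA : x ∈ Ah
  · have h3 : w + 2 ≤ (pset (fun k => t (i + k)) (j - i)).card := by
      refine h.pa _ (hp.sub.trans h.KR) ⟨_, mem_pset.2 ⟨0, by omega, rfl⟩⟩
        (path_hang hp (by omega) h.KAh ?_ ?_)
      · exact one_le_dg hxA h1.symm
      · show 1 ≤ dg G Ah (t (i + (j - i)))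
        rw [show i + (j - i) = j by omega]
        exact one_le_dg hxA h2.symm
    rw [hp.card] at h3
    omega
  · have hxK : x ∉ K := fun h3 => hx.2 (h.KQ h3)
    have hc : IsP G (insert x K) (cat (fun k => t (i + k)) (j - i) fun _ => x)
        (j - i + 1 + 0) := by
      refine (hp.mono (subset_insert x K)).cat ⟨fun a _ => mem_insert_self x K,
        fun a ha b hb _ => by omega, fun a ha => by omega⟩ ?_ ?_
      · intro a ha b _ hab
        apply hxK
        rw [← hab]
        exact hp.mem a ha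
      · show G.Adj (t (i + (j - i))) x
        rw [show i + (j - i) = j by omega]
        exact h2.symm
    have h3 : w + 2 ≤ (pset (cat (fun k => t (i + k)) (j - i) fun _ => x) (j - i + 1 + 0)).card := by
      refine h.pa _ (hc.sub.trans ?_) ⟨_, mem_pset.2 ⟨0, by omega, rfl⟩⟩
        (cyc_hang hc (by omega) ?_ Ah)
      · exact insert_subset (mem_sdiff.2 ⟨hx.1, hxA⟩) h.KR
      · rw [cat_left (Nat.zero_le _), cat_right]
        exact h1.symm
    rw [hc.card] at h3
    omega

end Dat

end Susp

open Finset Classical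
open Pool.Agent.Lib.MP_d31508_co.Asy (dg Cl D)
open Pool.Agent.Lib.MP_d31508_co.Sharp
open Susp

theorem stSusp : StSusp := by
  intro V _ G A R Ah w ρ hAR hker hAAh ⟨v, hvR, hvAh⟩ hρ hH
  obtain ⟨E, hE, hvE, hEc, hEh⟩ := cover (q := 2) (r := ρ) hker hAR hρ v hvR
  set F := R.powerset.filter (fun Q => Hang G A Q ∧ ¬ Q ⊆ Ah) with hF
  have hEF : E ∈ F := by
    rw [hF, mem_filter, mem_powerset]
    exact ⟨hE, hEh, fun h => hvAh (h hvE)⟩
  obtain ⟨Q, hQF, hmin⟩ := exists_min_image F card ⟨E, hEF⟩
  have hQc : Q.card ≤ 4 * ρ + 3 := (hmin E hEF).trans hEc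
  rw [hF, mem_filter, mem_powerset] at hQF
  obtain ⟨hQR, hQh, hQA⟩ := hQF
  have hdat : Dat G A R Ah Q (Q \ Ah) (A ∪ (Q ∩ Ah)) w := by
    refine ⟨hQR, hQh, hAAh, rfl, rfl, hAR, hH, ?_⟩
    intro X hXQ hXA hXh
    refine eq_of_subset_of_card_le hXQ (hmin X ?_)
    rw [hF, mem_filter, mem_powerset]
    exact ⟨hXQ.trans hQR, hXh, hXA⟩
  obtain ⟨x₀, hx₀⟩ : (Q \ Ah).Nonempty := by
    rw [Finset.nonempty_iff_ne_empty, ne_eq, sdiff_eq_empty_iff_subset]
    exact hQA
  have hgoal : Goal G A Q (Q \ Ah) w := by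
    obtain ⟨s, y, hy, -, hmax⟩ := exists_longest G (Q \ Ah) (fun _ => True) (y₀ := fun _ => x₀)
      ⟨fun i _ => hx₀, fun i hi j hj _ => by omega, fun i hi => by omega⟩ trivial
    by_cases hc : ∃ a b, a + 2 ≤ b ∧ b ≤ s ∧ G.Adj (y a) (y b)
    · obtain ⟨a, b, hab, hb, hadj⟩ := hc
      refine hdat.case_cycle (hy.seg (show a ≤ b by omega) hb) (by omega) ?_
      show G.Adj (y (a + 0)) (y (a + (b - a)))
      rw [add_zero, show a + (b - a) = b by omega]
      exact hadj
    · push Not at hc
      exact hdat.case_path hy (fun s' y' h => hmax s' y' h trivial) hc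
  obtain ⟨t, ht1, ht2, ht3⟩ := hgoal
  refine ⟨Q, t, hQR, hQc, hQh, fun i hi => ⟨sdiff_subset (ht1 i hi).1, (ht1 i hi).2⟩, ht2, ht3, ?_⟩
  intro x hx i hi j hj h1 h2
  rcases Nat.lt_trichotomy i j with h3 | h3 | h3
  · exact (hdat.last (fun i hi => (ht1 i hi).1) ht2 ht3 hx h3 hj h1 h2).elim
  · exact h3
  · exact (hdat.last (fun i hi => (ht1 i hi).1) ht2 ht3 hx h3 hi h2 h1).elim

end Pool.Agent.Lib.MP_d31508_co.Shq
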