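import Pool.Agent.Lib.MP_d31508_co.Shq.Stmts
import Pool.Agent.Lib.MP_d31508_co.Sharp.Final

/-!
# Project SHQ, module Final2: the numerical part
-/

namespace Pool.Agent.Lib.MP_d31508_co.Shq

open Finset Classical
open Pool.Agent.Lib.MP_d31508_co.Asy (dg Cl D f)
open Pool.Agent.Lib.MP_d31508_co.Sharp (diff_le lower_sparse lower_dense)
open Pool.Agent.Lib.MP_d31508_co.Shp (StSharp)

namespace Final2

/-- the exponent `ρ` -/
lemma rho_exists {n : ℕ} (hn : 1 ≤ n) :
    ∃ ρ : ℕ, 1 ≤ ρ ∧ n * 2 ^ ρ < 3 ^ ρ ∧ (ρ : ℝ) ≤ 3 * Real.log n + 1 := by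
  have hn0 : (0 : ℝ) < n := by exact_mod_cast hn
  have hx0 : 0 ≤ Real.log n := Real.log_natCast_nonneg n
  refine ⟨⌊3 * Real.log n⌋₊ + 1, by omega, ?_, ?_⟩
  · set r := ⌊3 * Real.log n⌋₊ + 1 with hr
    have h1 : 3 * Real.log n < r := by
      rw [hr]; push_cast
      exact Nat.lt_floor_add_one _
    have h3 : 1 / 3 ≤ Real.log (3 / 2 : ℝ) := by
      have h4 := Real.one_sub_inv_le_log_of_pos (show (0 : ℝ) < 3 / 2 by norm_num)
      norm_num at h4
      linarith
    have h6 : (n : ℝ) < (3 / 2 : ℝ) ^ r := by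
      rw [← Real.log_lt_log_iff hn0 (by positivity), Real.log_pow]
      have h7 : (r : ℝ) * (1 / 3) ≤ r * Real.log (3 / 2 : ℝ) :=
        mul_le_mul_of_nonneg_left h3 (by positivity)
      linarith
    have h8 : (n : ℝ) * 2 ^ r < 3 ^ r := by
      rw [div_pow, lt_div_iff₀ (by positivity)] at h6
      exact h6
    exact_mod_cast h8
  · push_cast
    have := Nat.floor_le (show 0 ≤ 3 * Real.log n by positivity)
    linarith

lemma log2_le {k : ℕ} (hk : 2 ≤ k) : ((Nat.log 2 k + 1 : ℕ) : ℝ) ≤ 3 * Real.log k := by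
  have h1 : (2 : ℝ) ^ (Nat.log 2 k) ≤ k := by
    exact_mod_cast Nat.pow_log_le_self 2 (by omega)
  have h2 := Real.log_le_log (by positivity) h1
  rw [Real.log_pow] at h2
  have h3 : Real.log 2 ≤ Real.log k := Real.log_le_log (by norm_num) (by exact_mod_cast hk)
  have h4 := Real.log_two_gt_d9
  push_cast
  have h5 : (0 : ℝ) ≤ (Nat.log 2 k : ℝ) := Nat.cast_nonneg _
  have h6 : (Nat.log 2 k : ℝ) * 0.6931471803 ≤ Real.log k := by nlinarith
  nlinarith

/-- lower bound -/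
lemma low {n k : ℕ} (hk : 2 ≤ k) (hn : k + 2 ≤ n) {δ : ℝ} (hδ0 : 0 < δ)
    (hδK : 1 / (k : ℝ) ≤ δ) :
    max ((k : ℝ) ^ 2 / 2 + (n : ℝ)) (3 * (n : ℝ) / 2) -
      108 * (δ * max ((k : ℝ) ^ 2 / 2 + (n : ℝ)) (3 * (n : ℝ) / 2)) ≤
      ((n.choose 2 : ℕ) : ℝ) - (f n k : ℝ) := by
  have hl1 := lower_sparse hk hn
  have hl2 := lower_dense (by omega : 1 ≤ k) hn
  set F : ℝ := ((n.choose 2 : ℕ) : ℝ) - (f n k : ℝ) with hF
  set K : ℝ := (k : ℝ) with hKdef
  have hKpos : 0 < K := by rw [hKdef]; exact_mod_cast (by omega : 0 < k)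
  have hnK : K + 2 ≤ n := by rw [hKdef]; exact_mod_cast hn
  set M : ℝ := max (K ^ 2 / 2 + (n : ℝ)) (3 * (n : ℝ) / 2) with hM
  rcases le_total (K ^ 2 / 2 + (n : ℝ)) (3 * (n : ℝ) / 2) with h | h
  · have hMe : M = 3 * (n : ℝ) / 2 := max_eq_right h
    have h1 : 1 ≤ δ * n := by
      have : 1 / K * K ≤ δ * n := mul_le_mul hδK (by linarith) hKpos.le hδ0.le
      rwa [one_div_mul_cancel hKpos.ne'] at this
    have h2 : δ * M = 3 / 2 * (δ * n) := by rw [hMe]; ring
    linarith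
  · have hMe : M = K ^ 2 / 2 + (n : ℝ) := max_eq_left h
    have h1 : (K + 1) * K / 2 + (n - (K + 1)) ≤ F := hl1
    have h2 : 1 / K * (K ^ 2 / 2) ≤ δ * M := by
      apply mul_le_mul hδK _ (by positivity) hδ0.le
      rw [hMe]
      linarith
    have h3 : 1 / K * (K ^ 2 / 2) = K / 2 := by field_simp
    have hK2 : 2 ≤ K := by rw [hKdef]; exact_mod_cast hk
    nlinarith

end Final2

open Final2 in
theorem stSharp2 (hS : StSharp) (hU : StUp2) : StSharp2 := by
  obtain ⟨C₁, hC₁, hS⟩ := hS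
  refine ⟨9 * C₁ + 2 * 10 ^ 9, by positivity, ?_⟩
  intro n k hk hn hC
  set x := Real.log n with hx
  set y := Real.log k with hy
  set K : ℝ := (k : ℝ) with hKdef
  have hK2 : (2 : ℝ) ≤ K := by rw [hKdef]; exact_mod_cast hk
  have hKpos : 0 < K := by linarith
  have hnK : K + 2 ≤ n := by rw [hKdef]; exact_mod_cast hn
  have hy1 : 0.69 ≤ y := by
    have h3 : Real.log 2 ≤ Real.log k := Real.log_le_log (by norm_num) (by exact_mod_cast hk)
    have h4 := Real.log_two_gt_d9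
    linarith
  have hxy : y ≤ x := Real.log_le_log hKpos (by linarith)
  have hx0 : 0.69 ≤ x := hy1.trans hxy
  set M : ℝ := max (K ^ 2 / 2 + (n : ℝ)) (3 * (n : ℝ) / 2) with hM
  have hM2 : 3 * (n : ℝ) / 2 ≤ M := le_max_right _ _
  have hM0 : 0 < M := by linarith
  have hxyp : 0 < x * y := by positivity
  have hq0 : 0 < x * y / K := by positivity
  set δ : ℝ := (x * y / K) ^ (1 / 4 : ℝ) with hδ
  have hδ0 : 0 < δ := Real.rpow_pos_of_pos hq0 _
  rcases le_or_gt x (9 * y) with hcase | hcase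
  · -- small n
    have h1 : x ^ 2 ≤ 9 * (x * y) := by nlinarith
    have h2 : C₁ * x ^ 2 ≤ K := by
      have h3 : C₁ * x ^ 2 ≤ C₁ * (9 * (x * y)) := mul_le_mul_of_nonneg_left h1 hC₁.le
      nlinarith
    have h3 := hS n k hn h2
    refine h3.trans ?_
    have h4 : (x ^ 2 / K) ^ (1 / 4 : ℝ) ≤ 9 * δ := by
      have h5 : x ^ 2 / K ≤ 9 * (x * y / K) := by
        rw [mul_div_assoc', div_le_div_iff_of_pos_right hKpos]
        exact h1
      calc (x ^ 2 / K) ^ (1 / 4 : ℝ) ≤ (9 * (x * y / K)) ^ (1 / 4 : ℝ) :=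
            Real.rpow_le_rpow (by positivity) h5 (by norm_num)
        _ = (9 : ℝ) ^ (1 / 4 : ℝ) * δ := by
            rw [Real.mul_rpow (by norm_num) hq0.le]
        _ ≤ 9 * δ := by
            apply mul_le_mul_of_nonneg_right _ hδ0.le
            calc (9 : ℝ) ^ (1 / 4 : ℝ) ≤ (9 : ℝ) ^ (1 : ℝ) :=
                  Real.rpow_le_rpow_of_exponent_le (by norm_num) (by norm_num)
              _ = 9 := Real.rpow_one 9
    apply mul_le_mul_of_nonneg_right _ hM0.le
    calc C₁ * (x ^ 2 / K) ^ (1 / 4 : ℝ) ≤ C₁ * (9 * δ) := mul_le_mul_of_nonneg_left h4 hC₁.le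
      _ = 9 * C₁ * δ := by ring
      _ ≤ _ := mul_le_mul_of_nonneg_right (by linarith) hδ0.le
  · -- large n
    have hx6 : 6 ≤ x := by linarith
    have hxy1 : 1 ≤ x * y := by nlinarith
    have hCK : 2 * 10 ^ 9 * (x * y) ≤ K := by
      have : 0 ≤ 9 * C₁ * (x * y) := by positivity
      nlinarith
    have hδ4 : δ ^ 4 = x * y / K := by
      rw [hδ, ← Real.rpow_natCast, ← Real.rpow_mul hq0.le]
      norm_num
    have hδ200 : δ ≤ 1 / 200 := by
      rw [← pow_le_pow_iff_left₀ hδ0.le (by norm_num) (show (4 : ℕ) ≠ 0 by norm_num), hδ4,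
        div_le_iff₀ hKpos]
      linarith
    have hδK : 1 / K ≤ δ := by
      have h1 : δ ^ 4 ≤ δ := pow_le_of_le_one hδ0.le (by linarith) (by norm_num)
      have h2 : 1 / K ≤ x * y / K := div_le_div_of_nonneg_right hxy1 hKpos.le
      linarith
    have hlow := low hk hn hδ0 hδK
    set F : ℝ := ((n.choose 2 : ℕ) : ℝ) - (f n k : ℝ) with hF
    set N := ⌊1 / (40 * δ)⌋₊ with hN
    have hN5 : 5 ≤ N := by
      apply Nat.le_floor
      rw [le_div_iff₀ (by positivity)]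
      push_cast
      linarith
    have hNle : (N : ℝ) * (40 * δ) ≤ 1 := by
      have := Nat.floor_le (show 0 ≤ 1 / (40 * δ) by positivity)
      rwa [le_div_iff₀ (by positivity)] at this
    have hNlt : 1 < ((N : ℝ) + 1) * (40 * δ) := by
      have := Nat.lt_floor_add_one (1 / (40 * δ))
      rwa [div_lt_iff₀ (by positivity)] at this
    have hN5' : (5 : ℝ) ≤ N := by exact_mod_cast hN5
    have hN4 : 2560000 * (N : ℝ) ^ 4 * (x * y) ≤ K := by
      have h1 : ((N : ℝ) * (40 * δ)) ^ 4 ≤ 1 := pow_le_one₀ (by positivity) hNle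
      have h2 : ((N : ℝ) * (40 * δ)) ^ 4 = 2560000 * (N : ℝ) ^ 4 * (x * y / K) := by
        rw [← hδ4]; ring
      rw [h2, mul_div_assoc', div_le_one hKpos] at h1
      exact h1
    obtain ⟨ρ, hρ1, hρp, hρx⟩ := rho_exists (n := n) (by omega)
    have hρ4 : (ρ : ℝ) ≤ 4 * x := by linarith
    -- log₂ ρ
    have hρk : ρ ≤ k := by
      have : (ρ : ℝ) ≤ K := by nlinarith
      rw [hKdef] at this
      exact_mod_cast this
    have hlog : ((Nat.log 2 ρ + 1 : ℕ) : ℝ) ≤ 3 * y := by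
      have h1 : Nat.log 2 ρ + 1 ≤ Nat.log 2 k + 1 :=
        Nat.add_le_add_right (Nat.log_mono_right hρk) 1
      have h2 : ((Nat.log 2 ρ + 1 : ℕ) : ℝ) ≤ ((Nat.log 2 k + 1 : ℕ) : ℝ) := by exact_mod_cast h1
      exact h2.trans (log2_le hk)
    have hNN : (N : ℝ) * (x * y) ≤ 1 / 64000000 * K := by
      -- N⁴ ≥ 125 N
      have h1 : 125 * (N : ℝ) ≤ (N : ℝ) ^ 4 := by
        have h2 : (5 : ℝ) ^ 3 ≤ (N : ℝ) ^ 3 := pow_le_pow_left₀ (by norm_num) hN5' 3
        have h3 : (N : ℝ) ^ 4 = (N : ℝ) ^ 3 * N := by ring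
        rw [h3]
        nlinarith
      have h2 : 125 * (N : ℝ) * (x * y) ≤ (N : ℝ) ^ 4 * (x * y) :=
        mul_le_mul_of_nonneg_right h1 hxyp.le
      nlinarith
    have hc1 : 1000000 * N * ρ * (Nat.log 2 ρ + 1) ≤ k + 2 := by
      have h0 : (ρ : ℝ) * ((Nat.log 2 ρ + 1 : ℕ) : ℝ) ≤ 4 * x * (3 * y) :=
        mul_le_mul hρ4 hlog (Nat.cast_nonneg _) (by positivity)
      have h1 : 1000000 * (N : ℝ) * ρ * ((Nat.log 2 ρ + 1 : ℕ) : ℝ) ≤ k + 2 := by
        calc 1000000 * (N : ℝ) * ρ * ((Nat.log 2 ρ + 1 : ℕ) : ℝ)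
            = 1000000 * (N : ℝ) * (ρ * ((Nat.log 2 ρ + 1 : ℕ) : ℝ)) := by ring
          _ ≤ 1000000 * (N : ℝ) * (4 * x * (3 * y)) :=
            mul_le_mul_of_nonneg_left h0 (by positivity)
          _ = 12000000 * ((N : ℝ) * (x * y)) := by ring
          _ ≤ 12000000 * (1 / 64000000 * K) := mul_le_mul_of_nonneg_left hNN (by norm_num)
          _ ≤ k + 2 := by rw [hKdef]; nlinarith
      exact_mod_cast h1
    have hc2 : 2000 * N ^ 3 * (k + 2) ^ 4 ≤ n := by
      have h1 : (N : ℝ) ^ 3 ≤ 1 / 2560000 * K := by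
        have h2 : (N : ℝ) ^ 3 ≤ (N : ℝ) ^ 4 := pow_le_pow_right₀ (by linarith) (by norm_num)
        have h3 : (N : ℝ) ^ 4 * 1 ≤ (N : ℝ) ^ 4 * (x * y) :=
          mul_le_mul_of_nonneg_left hxy1 (by positivity)
        nlinarith
      have h2 : (K + 2) ^ 4 ≤ 16 * K ^ 4 := by
        calc (K + 2) ^ 4 ≤ (2 * K) ^ 4 := pow_le_pow_left₀ (by positivity) (by linarith) 4
          _ = _ := by ring
      have h3 : K ^ 9 < n := by
        rw [← Real.log_lt_log_iff (by positivity) (by linarith), Real.log_pow]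
        push_cast
        exact hcase
      have h4 : K ^ 5 ≤ K ^ 9 := pow_le_pow_right₀ (by linarith) (by norm_num)
      have h5 : 2000 * (N : ℝ) ^ 3 * (K + 2) ^ 4 ≤ n := by
        calc 2000 * (N : ℝ) ^ 3 * (K + 2) ^ 4 ≤ 2000 * (1 / 2560000 * K) * (16 * K ^ 4) :=
              mul_le_mul (mul_le_mul_of_nonneg_left h1 (by norm_num)) h2 (by positivity)
                (by positivity)
          _ = 32000 / 2560000 * K ^ 5 := by ring
          _ ≤ K ^ 5 := by
            have : 0 ≤ K ^ 5 := by positivity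
            linarith
          _ ≤ K ^ 9 := h4
          _ ≤ n := h3.le
      rw [hKdef] at h5
      exact_mod_cast h5
    obtain ⟨H, hH, hHF⟩ := diff_le (n := n) (k := k) (by omega)
    have hNpos : (0 : ℝ) < N := by linarith
    have hup : N * F ≤ (N + 2) * M := by
      by_cases h2 : 3 * (N + 2) * n ≤ N * D H univ
      · obtain ⟨S, hS, hS'⟩ := hU (Fin n) H (k + 2) N ρ hN5 hρ1 (by simpa using hρp) hc1
          (by simpa using hc2) (by simpa using h2)
        exact absurd hS' (hH S hS)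
      · push Not at h2
        have h3 : (N : ℝ) * D H univ ≤ 3 * (N + 2) * n := by exact_mod_cast h2.le
        have h4 : ((N : ℝ) + 2) * (3 * (n : ℝ) / 2) ≤ (N + 2) * M :=
          mul_le_mul_of_nonneg_left hM2 (by positivity)
        rw [hF, hHF]
        linarith
    have hFup : F ≤ M + 108 * (δ * M) := by
      have h1 : 2 ≤ N * (96 * δ) := by
        have : ((N : ℝ) + 1) * (40 * δ) ≤ (6 / 5 * N) * (40 * δ) :=
          mul_le_mul_of_nonneg_right (by linarith) (by positivity)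
        linarith
      have h2 : ((N : ℝ) + 2) ≤ N * (1 + 96 * δ) := by linarith
      have h3 : N * F ≤ N * ((1 + 96 * δ) * M) := by
        calc N * F ≤ (N + 2) * M := hup
          _ ≤ (N * (1 + 96 * δ)) * M := mul_le_mul_of_nonneg_right h2 hM0.le
          _ = _ := by ring
      have h4 : F ≤ (1 + 96 * δ) * M := le_of_mul_le_mul_left h3 hNpos
      have h5 : 0 ≤ δ * M := by positivity
      linarith
    rw [abs_le]
    have h5 : 0 ≤ δ * M := by positivity
    have h6 : (9 * C₁ + 2 * 10 ^ 9) * δ * M = 9 * C₁ * (δ * M) + 2 * 10 ^ 9 * (δ * M) := by ring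
    have h7 : 0 ≤ 9 * C₁ * (δ * M) := by positivity
    rw [h6]
    constructor <;> linarith

end Pool.Agent.Lib.MP_d31508_co.Shq
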