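import Pool.Agent.Lib.MP_d31508_co.Shp.Stmts

/-!
# Project SHQ (MP_d31508_co): the sharp asymptotics of `f(n,k)` for `log n` up to `c k / log k`

Complement language as in projects AS and SHP: `m = k + 2`, and `H` has no closed `m`-set.
`Ker G a b A R`: every nonempty `Z ⊆ R` meets at least `(a/b)|Z|` edges of `A ∪ R`;
`Hang G A E`: every vertex of `E` has two neighbours in `A ∪ E`.
Every module proves one of the statements `St...` below.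
-/

namespace Pool.Agent.Lib.MP_d31508_co.Shq

open Finset Classical
open Pool.Agent.Lib.MP_d31508_co.Asy (dg Cl D HasP f)
open Pool.Agent.Lib.MP_d31508_co.Sharp (Ker Hang)

/-- module Cut: three consecutive vertices `a, b, c` of a hanging set `Q`, all of degree two; by
adding a small set `E` one of them gets a third neighbour. At most two vertices of `E` have
neighbours in `Q` other than `a, b, c`. -/
def StCut : Prop := ∀ (V : Type) [Fintype V] (G : SimpleGraph V) (A R Q : Finset V)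
  (a b c : V) (ρ : ℕ), Disjoint A R → Ker G 3 2 A R → Q ⊆ R → Hang G A Q →
  a ∈ Q → b ∈ Q → c ∈ Q → G.Adj a b → G.Adj b c → a ≠ c → ¬ G.Adj a c →
  dg G (A ∪ Q) a = 2 → dg G (A ∪ Q) b = 2 → dg G (A ∪ Q) c = 2 →
  Fintype.card V * 2 ^ ρ < 3 ^ ρ →
  ∃ E : Finset V, E ⊆ R \ Q ∧ E.card ≤ 2 * ρ + 2 ∧ Hang G A (Q ∪ E) ∧
    (1 ≤ dg G E a ∨ 1 ≤ dg G E b ∨ 1 ≤ dg G E c) ∧
    ∃ x x' : V, ∀ y ∈ E, y ≠ x → y ≠ x' → ∀ z ∈ Q, z ≠ a → z ≠ b → z ≠ c → ¬ G.Adj y z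

/-- module Piece: from a path of `l` vertices of degree two in the hanging set `Q` to a closed set
`B` and an optional set `T` of size between `(l - 10) / 5` and `l` -/
def StPiece : Prop := ∀ (V : Type) [Fintype V] (G : SimpleGraph V) (A R Q : Finset V)
  (t : ℕ → V) (l ρ : ℕ), Disjoint A R → Ker G 3 2 A R → Cl G A → Q ⊆ R → Hang G A Q →
  20 ≤ l → (∀ i < l, t i ∈ Q ∧ dg G (A ∪ Q) (t i) = 2) →
  (∀ i < l, ∀ j < l, t i = t j → i = j) → (∀ i, i + 1 < l → G.Adj (t i) (t (i + 1))) →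
  (∀ x ∈ R \ Q, ∀ i < l, ∀ j < l, G.Adj x (t i) → G.Adj x (t j) → i = j) →
  Fintype.card V * 2 ^ ρ < 3 ^ ρ →
  ∃ B T : Finset V, A ⊆ B ∧ B ⊆ A ∪ R ∧ T ⊆ R ∧ Disjoint B T ∧ Cl G B ∧ Hang G B T ∧
    B.card + T.card ≤ A.card + Q.card + (4 * ρ + 4) ∧ l ≤ 5 * T.card + 10 ∧ T.card ≤ l

/-- module Susp: if no small set hangs on `Ah` then there is a small set `Q` hanging on `A` with a
path of `w / 2` vertices of degree two -/
def StSusp : Prop := ∀ (V : Type) [Fintype V] (G : SimpleGraph V) (A R Ah : Finset V)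
  (w ρ : ℕ), Disjoint A R → Ker G 3 2 A R → A ⊆ Ah → (∃ v ∈ R, v ∉ Ah) →
  Fintype.card V * 2 ^ ρ < 3 ^ ρ →
  (∀ X : Finset V, X ⊆ R \ Ah → X.Nonempty → Hang G Ah X → w + 2 ≤ X.card) →
  ∃ (Q : Finset V) (t : ℕ → V), Q ⊆ R ∧ Q.card ≤ 4 * ρ + 3 ∧ Hang G A Q ∧
    (∀ i < w / 2, t i ∈ Q ∧ dg G (A ∪ Q) (t i) = 2) ∧
    (∀ i < w / 2, ∀ j < w / 2, t i = t j → i = j) ∧
    (∀ i, i + 1 < w / 2 → G.Adj (t i) (t (i + 1))) ∧
    (∀ x ∈ R \ Q, ∀ i < w / 2, ∀ j < w / 2, G.Adj x (t i) → G.Adj x (t j) → i = j)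

/-- all numbers up to `w` are sizes of subsets of `Y` hanging on `A` -/
def Flex {V : Type} [Fintype V] (G : SimpleGraph V) (A Y : Finset V) (w : ℕ) : Prop :=
  ∀ t ≤ w, ∃ Y' : Finset V, Y' ⊆ Y ∧ Y'.card = t ∧ Hang G A Y'

/-- module Inc: a closed `m`-set, or a closed set `B ⊇ A` with a new optional set `T` -/
def StInc : Prop := ∀ (V : Type) [Fintype V] (G : SimpleGraph V) (A R Y : Finset V)
  (w m ρ : ℕ), Disjoint A R → Disjoint A Y → Disjoint R Y → Ker G 3 2 A R → Cl G A →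
  Flex G A Y w → 40 ≤ w → A.card ≤ m → m < R.card → Fintype.card V * 2 ^ ρ < 3 ^ ρ →
  (∃ S : Finset V, S.card = m ∧ Cl G S) ∨
  (w < 4 * ρ + 2 ∧ ∃ B T : Finset V, A ⊆ B ∧ B ⊆ A ∪ R ∧ T ⊆ R ∧ Disjoint B T ∧ Cl G B ∧
    Hang G B T ∧ B.card + T.card ≤ A.card + (8 * ρ + 7) ∧ w ≤ 10 * T.card + 21 ∧
    T.card ≤ w + 1)

/-- module Big: closed sets of size `m` in a large kernel of density more than `3/2` -/
def StBig : Prop := ∀ (V : Type) [Fintype V] (G : SimpleGraph V) (W : Finset V)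
  (N m ρ : ℕ), 5 ≤ N → 1 ≤ ρ → Ker G (3 * N + 1) (2 * N) ∅ W → D G W ≤ 6 * W.card →
  Fintype.card V * 2 ^ ρ < 3 ^ ρ → 1000000 * N * ρ * (Nat.log 2 ρ + 1) ≤ m →
  100 * N * m ^ 2 ≤ W.card → ∃ S : Finset V, S.card = m ∧ Cl G S

/-- module Up2: the upper bound for the number of edges, for large `n` -/
def StUp2 : Prop := ∀ (V : Type) [Fintype V] (G : SimpleGraph V) (m N ρ : ℕ), 5 ≤ N → 1 ≤ ρ →
  Fintype.card V * 2 ^ ρ < 3 ^ ρ → 1000000 * N * ρ * (Nat.log 2 ρ + 1) ≤ m →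
  2000 * N ^ 3 * m ^ 4 ≤ Fintype.card V →
  3 * (N + 2) * Fintype.card V ≤ N * D G univ →
  ∃ S : Finset V, S.card = m ∧ Cl G S

/-- the final statement -/
def StSharp2 : Prop := ∃ C : ℝ, 0 < C ∧ ∀ n k : ℕ, 2 ≤ k → k + 2 ≤ n →
  C * (Real.log n * Real.log k) ≤ k →
  |((n.choose 2 : ℕ) : ℝ) - (f n k : ℝ) - max ((k : ℝ) ^ 2 / 2 + (n : ℝ)) (3 * (n : ℝ) / 2)| ≤
    C * (Real.log n * Real.log k / k) ^ (1 / 4 : ℝ) *
      max ((k : ℝ) ^ 2 / 2 + (n : ℝ)) (3 * (n : ℝ) / 2)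

end Pool.Agent.Lib.MP_d31508_co.Shq
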